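import Mathlib

set_option autoImplicit false

/-!
A half-line version of Lévy's continuity theorem for empirical measures of finite sets: if the
characteristic functions converge to that of the standard normal law, then asymptotically half of
the points are nonnegative.
-/

namespace Pool.Agent.L0h74.S4

open Finset MeasureTheory ProbabilityTheory Filter Complex
open scoped ENNReal NNReal Topology

/-- The empirical measure -/
noncomputable def emp (S : Finset ℕ) (x : ℕ → ℝ) : Measure ℝ :=
  (S.card : ℝ≥0∞)⁻¹ • ∑ D ∈ S, Measure.dirac (x D)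

lemma emp_apply (S : Finset ℕ) (x : ℕ → ℝ) {A : Set ℝ} (hA : MeasurableSet A) :
    emp S x A = (S.card : ℝ≥0∞)⁻¹ * ∑ D ∈ S, A.indicator 1 (x D) := by
  simp only [emp, Measure.smul_apply, Measure.finsetSum_apply, smul_eq_mul]
  congr 1
  apply Finset.sum_congr rfl
  intro D _
  rw [Measure.dirac_apply' _ hA]

lemma emp_prob {S : Finset ℕ} (hS : S.Nonempty) (x : ℕ → ℝ) : IsProbabilityMeasure (emp S x) := by
  constructor
  rw [emp_apply S x MeasurableSet.univ]
  simp only [Set.indicator_univ, Pi.one_apply, Finset.sum_const, nsmul_eq_mul, mul_one]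
  apply ENNReal.inv_mul_cancel
  · exact_mod_cast (Finset.card_pos.2 hS).ne'
  · exact ENNReal.natCast_ne_top _

lemma emp_charFun (S : Finset ℕ) (x : ℕ → ℝ) (t : ℝ) :
    charFun (emp S x) t = (S.card : ℂ)⁻¹ * ∑ D ∈ S, cexp (t * x D * I) := by
  rw [charFun_apply_real, emp, integral_smul_measure, integral_finsetSum_measure]
  · simp only [integral_dirac]
    rw [ENNReal.toReal_inv, ENNReal.toReal_natCast, Complex.real_smul]
    push_cast
    rfl
  · intro D _
    apply integrable_dirac
    exact enorm_lt_top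

lemma emp_Ici (S : Finset ℕ) (x : ℕ → ℝ) :
    (emp S x).real (Set.Ici 0) = ((S.filter (fun D => 0 ≤ x D)).card : ℝ) / S.card := by
  rw [Measure.real, emp_apply S x measurableSet_Ici, ENNReal.toReal_mul, ENNReal.toReal_inv,
    ENNReal.toReal_natCast]
  have : ∑ D ∈ S, (Set.Ici (0 : ℝ)).indicator (1 : ℝ → ℝ≥0∞) (x D) =
      ((S.filter (fun D => 0 ≤ x D)).card : ℝ≥0∞) := by
    rw [Finset.card_filter]
    push_cast
    apply Finset.sum_congr rfl
    intro D _
    simp [Set.indicator_apply]
  rw [this, ENNReal.toReal_natCast]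
  field_simp

lemma gauss_half : (gaussianReal 0 1).real (Set.Ici (0 : ℝ)) = 1 / 2 := by
  set μ : Measure ℝ := gaussianReal 0 1 with hμ
  have hna : NullSingletonClass μ := nullSingletonClass_gaussianReal (by norm_num)
  have h1 : μ.real (Set.Iic (0 : ℝ)) = μ.real (Set.Ici (0 : ℝ)) := by
    have h2 : μ.map (fun x => -x) = μ := by
      rw [hμ, gaussianReal_map_neg, neg_zero]
    have h3 : (μ.map (fun x => -x)) (Set.Ici 0) = μ (Set.Iic 0) := by
      rw [Measure.map_apply measurable_neg measurableSet_Ici]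
      congr 1
      ext y
      simp
    rw [h2] at h3
    simp only [Measure.real, h3]
  have h2 : μ.real (Set.Iio (0 : ℝ)) = μ.real (Set.Iic (0 : ℝ)) := by
    simp only [Measure.real]
    rw [measure_congr (Iio_ae_eq_Iic (μ := μ) (a := (0 : ℝ)))]
  have h3 : μ.real (Set.Iio (0 : ℝ)) + μ.real (Set.Ici (0 : ℝ)) = 1 := by
    rw [← measureReal_union]
    · rw [Set.Iio_union_Ici]
      simp [hμ]
    · rw [Set.disjoint_left]
      intro y hy hy2
      simp at hy hy2
      linarith
    · exact measurableSet_Ici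
  linarith

theorem levy_half (S : ℕ → Finset ℕ) (hS : ∀ n, (S n).Nonempty) (x : ℕ → ℕ → ℝ)
    (h : ∀ t : ℝ, Tendsto (fun n => ((S n).card : ℂ)⁻¹ * ∑ D ∈ S n, cexp (t * x n D * I)) atTop
      (𝓝 (cexp (-(t ^ 2 / 2))))) :
    Tendsto (fun n => (((S n).filter (fun D => 0 ≤ x n D)).card : ℝ) / (S n).card) atTop
      (𝓝 (1 / 2)) := by
  let μ : ℕ → ProbabilityMeasure ℝ := fun n => ⟨emp (S n) (x n), emp_prob (hS n) (x n)⟩
  let ν : ProbabilityMeasure ℝ := ⟨gaussianReal 0 1, inferInstance⟩
  have h1 : Tendsto μ atTop (𝓝 ν) := by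
    apply ProbabilityMeasure.tendsto_of_tendsto_charFun
    intro t
    have e1 : ∀ n, charFun ((μ n : ProbabilityMeasure ℝ) : Measure ℝ) t =
        ((S n).card : ℂ)⁻¹ * ∑ D ∈ S n, cexp (t * x n D * I) := fun n => emp_charFun _ _ _
    have e2 : charFun ((ν : ProbabilityMeasure ℝ) : Measure ℝ) t = cexp (-(t ^ 2 / 2)) := by
      change charFun (gaussianReal 0 1) t = _
      rw [charFun_gaussianReal]
      congr 1
      simp
    simp only [e1, e2]
    exact h t
  have hna : NullSingletonClass (gaussianReal (0 : ℝ) 1) := nullSingletonClass_gaussianReal (by norm_num)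
  have h2 := ProbabilityMeasure.tendsto_measure_of_null_frontier_of_tendsto' h1
    (E := Set.Ici (0 : ℝ)) (by
      rw [frontier_Ici]
      change (gaussianReal (0 : ℝ) 1) {0} = 0
      simp)
  have h3 := (ENNReal.tendsto_toReal (measure_ne_top ((ν : ProbabilityMeasure ℝ) : Measure ℝ)
    (Set.Ici (0 : ℝ)))).comp h2
  have h4 : ∀ n, (ENNReal.toReal ∘ fun i => ((μ i : ProbabilityMeasure ℝ) : Measure ℝ)
      (Set.Ici 0)) n = (((S n).filter (fun D => 0 ≤ x n D)).card : ℝ) / (S n).card := by
    intro n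
    exact emp_Ici (S n) (x n)
  have h5 : (((ν : ProbabilityMeasure ℝ) : Measure ℝ) (Set.Ici 0)).toReal = 1 / 2 := gauss_half
  rw [h5] at h3
  exact h3.congr h4

end Pool.Agent.L0h74.S4
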