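import Mathlib

set_option autoImplicit false

/-!
Counting integers `n ≤ X`, `n ≡ 1 mod 4`, `7 ∤ n`, with local weights at finitely many primes
(a Rankin type bound for the error term).
-/

namespace Pool.Agent.L0h74.S4

open Finset

lemma cnt_mod (q a K : ℕ) (hq : 0 < q) (ha : a < q) :
    |(((Icc 1 K).filter (fun k => k % q = a)).card : ℝ) - K / q| ≤ 1 := by
  have h1 : (Icc 1 K).filter (fun k => k % q = a) = (Ioc 0 K).filter (fun k => k ≡ a [MOD q]) := by
    ext k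
    simp only [mem_filter, mem_Icc, mem_Ioc, Nat.ModEq, Nat.mod_eq_of_lt ha]
    constructor
    · rintro ⟨⟨h1, h2⟩, h3⟩; exact ⟨⟨by omega, h2⟩, h3⟩
    · rintro ⟨⟨h1, h2⟩, h3⟩; exact ⟨⟨by omega, h2⟩, h3⟩
  rw [h1]
  have h2 := Nat.Ioc_filter_modEq_card 0 K hq a
  have hq0 : (0 : ℚ) < q := by exact_mod_cast hq
  set u : ℚ := ((K : ℚ) - a) / q with hu
  set v : ℚ := ((0 : ℕ) - (a : ℚ)) / q with hv
  have huv : u - v = K / q := by rw [hu, hv]; push_cast; ring
  have hKq : (0 : ℚ) ≤ K / q := by positivity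
  have h3 : v ≤ u := by linarith
  have h4 : ⌊v⌋ ≤ ⌊u⌋ := Int.floor_le_floor h3
  have h5 : (((Ioc 0 K).filter (fun k => k ≡ a [MOD q])).card : ℤ) = ⌊u⌋ - ⌊v⌋ := by
    rw [h2]
    exact max_eq_left (by omega)
  have h6 : (((Ioc 0 K).filter (fun k => k ≡ a [MOD q])).card : ℚ) = (⌊u⌋ : ℚ) - ⌊v⌋ := by
    exact_mod_cast h5
  have h7 : |(((Ioc 0 K).filter (fun k => k ≡ a [MOD q])).card : ℚ) - K / q| ≤ 1 := by
    rw [h6, ← huv, abs_le]
    have a1 := Int.floor_le u
    have a2 := Int.lt_floor_add_one u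
    have a3 := Int.floor_le v
    have a4 := Int.lt_floor_add_one v
    constructor <;> linarith
  have h8 : ((|(((Ioc 0 K).filter (fun k => k ≡ a [MOD q])).card : ℚ) - K / q| : ℚ) : ℝ) ≤
      ((1 : ℚ) : ℝ) := by exact_mod_cast h7
  push_cast at h8
  exact h8

lemma cnt_crt (u v a X : ℕ) (hu : 0 < u) (hv : 0 < v) (ha : a < u) (huv : Nat.Coprime u v) :
    |(((Icc 1 X).filter (fun n => n % u = a ∧ v ∣ n)).card : ℝ) - X / (u * v)| ≤ 1 := by
  obtain ⟨k, hk1, hk2⟩ := Nat.chineseRemainder huv a 0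
  have h1 : (Icc 1 X).filter (fun n => n % u = a ∧ v ∣ n) =
      (Icc 1 X).filter (fun n => n % (u * v) = k % (u * v)) := by
    ext n
    simp only [mem_filter]
    constructor
    · rintro ⟨h1, h2, h3⟩
      refine ⟨h1, ?_⟩
      have h4 : n ≡ k [MOD u] := by
        have : n ≡ a [MOD u] := by rw [Nat.ModEq, h2, Nat.mod_eq_of_lt ha]
        exact this.trans hk1.symm
      have h5 : n ≡ k [MOD v] := by
        have : n ≡ 0 [MOD v] := (Nat.modEq_zero_iff_dvd).2 h3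
        exact this.trans hk2.symm
      exact (Nat.modEq_and_modEq_iff_modEq_mul huv).1 ⟨h4, h5⟩
    · rintro ⟨h1, h2⟩
      obtain ⟨h4, h5⟩ := (Nat.modEq_and_modEq_iff_modEq_mul huv).2 h2
      refine ⟨h1, ?_, ?_⟩
      · have := h4.trans hk1
        rw [Nat.ModEq, Nat.mod_eq_of_lt ha] at this
        exact this
      · exact (Nat.modEq_zero_iff_dvd).1 (h5.trans hk2)
  rw [h1]
  have := cnt_mod (u * v) (k % (u * v)) X (by positivity) (Nat.mod_lt _ (by positivity))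
  push_cast at this
  exact this

/-- the base set -/
def Base (X : ℕ) : Finset ℕ := (Icc 1 X).filter (fun n => n % 4 = 1 ∧ n % 7 ≠ 0)

lemma cnt_dvd (X d : ℕ) (hd : 0 < d) (hc : Nat.Coprime d 14) :
    |(((Base X).filter (fun n => d ∣ n)).card : ℝ) - 3 / 14 * (X / d)| ≤ 2 := by
  have hc2 : Nat.Coprime d 2 := Nat.Coprime.coprime_dvd_right (by norm_num) hc
  have hc7 : Nat.Coprime d 7 := Nat.Coprime.coprime_dvd_right (by norm_num) hc
  have hc4 : Nat.Coprime 4 d := by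
    have : Nat.Coprime (2 ^ 2) d := Nat.Coprime.pow_left 2 hc2.symm
    simpa using this
  have hc47 : Nat.Coprime 4 (7 * d) := Nat.Coprime.mul_right (by norm_num) hc4
  have h1 := cnt_crt 4 d 1 X (by norm_num) hd (by norm_num) hc4
  have h2 := cnt_crt 4 (7 * d) 1 X (by norm_num) (by positivity) (by norm_num) hc47
  have h3 : ((Base X).filter (fun n => d ∣ n)).card +
      ((Icc 1 X).filter (fun n => n % 4 = 1 ∧ (7 * d) ∣ n)).card =
      ((Icc 1 X).filter (fun n => n % 4 = 1 ∧ d ∣ n)).card := by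
    rw [← Finset.card_union_of_disjoint]
    · congr 1
      ext n
      simp only [Base, mem_union, mem_filter]
      constructor
      · rintro (⟨⟨h1, h2, h3⟩, h4⟩ | ⟨h1, h2, h3⟩)
        · exact ⟨h1, h2, h4⟩
        · exact ⟨h1, h2, (Dvd.intro_left 7 rfl).trans h3⟩
      · rintro ⟨h1, h2, h3⟩
        by_cases h7 : n % 7 = 0
        · right
          exact ⟨h1, h2, Nat.Coprime.mul_dvd_of_dvd_of_dvd hc7.symm (Nat.dvd_of_mod_eq_zero h7) h3⟩
        · left
          exact ⟨⟨h1, h2, h7⟩, h3⟩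
    · rw [Finset.disjoint_left]
      intro n hn1 hn2
      simp only [Base, mem_filter] at hn1 hn2
      exact hn1.1.2.2 (Nat.mod_eq_zero_of_dvd ((Dvd.intro d rfl).trans hn2.2.2))
  have h3' : (((Base X).filter (fun n => d ∣ n)).card : ℝ) =
      (((Icc 1 X).filter (fun n => n % 4 = 1 ∧ d ∣ n)).card : ℝ) -
      (((Icc 1 X).filter (fun n => n % 4 = 1 ∧ (7 * d) ∣ n)).card : ℝ) := by
    rw [eq_sub_iff_add_eq]; exact_mod_cast h3
  have hd0 : (0 : ℝ) < d := by exact_mod_cast hd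
  have e1 : (3 : ℝ) / 14 * (X / d) = X / ((4 : ℕ) * d) - X / ((4 : ℕ) * ((7 * d : ℕ) : ℝ)) := by
    push_cast
    field_simp
    ring
  rw [h3', e1]
  rw [abs_le] at h1 h2 ⊢
  constructor <;> linarith [h1.1, h1.2, h2.1, h2.2]

lemma cnt_dvd2 (X d : ℕ) (hd : 0 < d) (hc : Nat.Coprime d 14) {s : ℝ} (hs0 : 0 ≤ s) (hs1 : s ≤ 1) :
    |(((Base X).filter (fun n => d ∣ n)).card : ℝ) - 3 / 14 * (X / d)| ≤ 2 * ((X : ℝ) / d) ^ s := by
  have hd0 : (0 : ℝ) < d := by exact_mod_cast hd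
  by_cases h : (1 : ℝ) ≤ X / d
  · have h1 : 1 ≤ ((X : ℝ) / d) ^ s := Real.one_le_rpow h hs0
    have := cnt_dvd X d hd hc
    linarith
  · rw [not_le] at h
    have h0 : (0 : ℝ) ≤ X / d := by positivity
    have h1 : (X : ℝ) / d ≤ ((X : ℝ) / d) ^ s := by
      rcases h0.eq_or_lt with h2 | h2
      · rw [← h2]; exact Real.rpow_nonneg le_rfl _
      · calc (X : ℝ) / d = ((X : ℝ) / d) ^ (1 : ℝ) := (Real.rpow_one _).symm
          _ ≤ ((X : ℝ) / d) ^ s := Real.rpow_le_rpow_of_exponent_ge h2 h.le hs1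
    have h3 : (((Base X).filter (fun n => d ∣ n)).card : ℝ) = 0 := by
      have : (Base X).filter (fun n => d ∣ n) = ∅ := by
        apply Finset.filter_eq_empty_iff.2
        intro n hn hdn
        simp only [Base, mem_filter, mem_Icc] at hn
        have h4 := Nat.le_of_dvd (by omega) hdn
        have h5 : (d : ℝ) ≤ X := by exact_mod_cast h4.trans hn.1.2
        rw [div_lt_one hd0] at h
        linarith
      rw [this]; simp
    rw [h3, zero_sub, abs_neg, abs_of_nonneg (by positivity)]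
    have h4 : 0 ≤ ((X : ℝ) / d) ^ s := Real.rpow_nonneg h0 _
    linarith

/-- local factor -/
noncomputable def G (a b : ℕ → ℂ) (p n : ℕ) : ℂ :=
  1 + (if p ∣ n then a p else 0) + (if p ^ 2 ∣ n then b p else 0)

theorem rankin (X : ℕ) {s : ℝ} (hs0 : 0 ≤ s) (hs1 : s ≤ 1) (a b : ℕ → ℂ) (P : Finset ℕ)
    (hP : ∀ p ∈ P, p.Prime ∧ p ≠ 2 ∧ p ≠ 7) :
    ∀ d : ℕ, 0 < d → Nat.Coprime d 14 → (∀ p ∈ P, ¬ p ∣ d) →
      ‖∑ n ∈ (Base X).filter (fun n => d ∣ n), ∏ p ∈ P, G a b p n -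
        3 / 14 * ((X : ℂ) / d) * ∏ p ∈ P, (1 + a p / p + b p / (p : ℂ) ^ 2)‖ ≤
      2 * ((X : ℝ) / d) ^ s *
        ∏ p ∈ P, (1 + ‖a p‖ * (p : ℝ) ^ (-s) + ‖b p‖ * ((p : ℝ) ^ 2) ^ (-s)) := by
  classical
  induction P using Finset.induction_on with
  | empty =>
    intro d hd hc _
    simp only [Finset.prod_empty, mul_one]
    have h1 := cnt_dvd2 X d hd hc hs0 hs1
    have h2 : ∑ n ∈ (Base X).filter (fun n => d ∣ n), (1 : ℂ) - 3 / 14 * ((X : ℂ) / d) =
        (((((Base X).filter (fun n => d ∣ n)).card : ℝ) - 3 / 14 * (X / d) : ℝ) : ℂ) := by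
      push_cast
      simp
    rw [h2, Complex.norm_real, Real.norm_eq_abs]
    exact h1
  | insert p P hpP ih =>
    intro d hd hc hpd
    have hpp := (hP p (mem_insert_self _ _)).1
    have hp2 := (hP p (mem_insert_self _ _)).2.1
    have hp7 := (hP p (mem_insert_self _ _)).2.2
    have ih' := ih (fun q hq => hP q (mem_insert_of_mem hq))
    have hpd' : ¬ p ∣ d := hpd p (mem_insert_self _ _)
    have hpos := hpp.pos
    have hp14 : Nat.Coprime p 14 := by
      rw [hpp.coprime_iff_not_dvd]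
      intro h
      have : p ∣ 2 * 7 := by simpa using h
      rcases (hpp.dvd_mul).1 this with h | h
      · exact hp2 ((Nat.prime_dvd_prime_iff_eq hpp Nat.prime_two).1 h)
      · exact hp7 ((Nat.prime_dvd_prime_iff_eq hpp (by norm_num)).1 h)
    have hcop1 : Nat.Coprime d p := (hpp.coprime_iff_not_dvd.2 hpd').symm
    have hcop2 : Nat.Coprime d (p ^ 2) := Nat.Coprime.pow_right 2 hcop1
    have hq1 : ∀ q ∈ P, ¬ q ∣ d * p := by
      intro q hq h
      have hqp := (hP q (mem_insert_of_mem hq)).1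
      rcases (hqp.dvd_mul).1 h with h | h
      · exact hpd q (mem_insert_of_mem hq) h
      · have := (Nat.prime_dvd_prime_iff_eq hqp hpp).1 h
        subst this
        exact hpP hq
    have hq2 : ∀ q ∈ P, ¬ q ∣ d * p ^ 2 := by
      intro q hq h
      have hqp := (hP q (mem_insert_of_mem hq)).1
      rcases (hqp.dvd_mul).1 h with h | h
      · exact hpd q (mem_insert_of_mem hq) h
      · have := (Nat.prime_dvd_prime_iff_eq hqp hpp).1 (hqp.dvd_of_dvd_pow h)
        subst this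
        exact hpP hq
    have i0 := ih' d hd hc (fun q hq => hpd q (mem_insert_of_mem hq))
    have i1 := ih' (d * p) (by positivity) (Nat.Coprime.mul_left hc hp14) hq1
    have i2 := ih' (d * p ^ 2) (by positivity)
      (Nat.Coprime.mul_left hc (Nat.Coprime.pow_left 2 hp14)) hq2
    set W : ℕ → ℂ := fun n => ∏ q ∈ P, G a b q n with hW
    set E : ℂ := ∏ q ∈ P, (1 + a q / q + b q / (q : ℂ) ^ 2) with hE
    set R : ℝ := ∏ q ∈ P, (1 + ‖a q‖ * (q : ℝ) ^ (-s) + ‖b q‖ * ((q : ℝ) ^ 2) ^ (-s)) with hR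
    have hsum : ∑ n ∈ (Base X).filter (fun n => d ∣ n), ∏ q ∈ insert p P, G a b q n =
        ∑ n ∈ (Base X).filter (fun n => d ∣ n), W n +
        a p * ∑ n ∈ (Base X).filter (fun n => d * p ∣ n), W n +
        b p * ∑ n ∈ (Base X).filter (fun n => d * p ^ 2 ∣ n), W n := by
      have e1 : (Base X).filter (fun n => d * p ∣ n) =
          ((Base X).filter (fun n => d ∣ n)).filter (fun n => p ∣ n) := by
        ext n
        simp only [mem_filter]
        constructor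
        · rintro ⟨h1, h2⟩
          exact ⟨⟨h1, (Dvd.intro p rfl).trans h2⟩, (Dvd.intro_left d rfl).trans h2⟩
        · rintro ⟨⟨h1, h2⟩, h3⟩
          exact ⟨h1, Nat.Coprime.mul_dvd_of_dvd_of_dvd hcop1 h2 h3⟩
      have e2 : (Base X).filter (fun n => d * p ^ 2 ∣ n) =
          ((Base X).filter (fun n => d ∣ n)).filter (fun n => p ^ 2 ∣ n) := by
        ext n
        simp only [mem_filter]
        constructor
        · rintro ⟨h1, h2⟩
          exact ⟨⟨h1, (Dvd.intro (p ^ 2) rfl).trans h2⟩, (Dvd.intro_left d rfl).trans h2⟩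
        · rintro ⟨⟨h1, h2⟩, h3⟩
          exact ⟨h1, Nat.Coprime.mul_dvd_of_dvd_of_dvd hcop2 h2 h3⟩
      rw [e1, e2, Finset.sum_filter (s := (Base X).filter (fun n => d ∣ n)) (fun n => p ∣ n),
        Finset.sum_filter (s := (Base X).filter (fun n => d ∣ n)) (fun n => p ^ 2 ∣ n),
        Finset.mul_sum, Finset.mul_sum, ← Finset.sum_add_distrib, ← Finset.sum_add_distrib]
      apply Finset.sum_congr rfl
      intro n _
      rw [Finset.prod_insert hpP]
      simp only [hW, G]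
      by_cases h1 : p ∣ n <;> by_cases h2 : p ^ 2 ∣ n <;> simp [h1, h2] <;> ring
    rw [hsum, Finset.prod_insert hpP, Finset.prod_insert hpP]
    have hp0 : (p : ℂ) ≠ 0 := by exact_mod_cast hpp.ne_zero
    have hd0 : (d : ℂ) ≠ 0 := by exact_mod_cast hd.ne'
    have key : ∑ n ∈ (Base X).filter (fun n => d ∣ n), W n +
        a p * ∑ n ∈ (Base X).filter (fun n => d * p ∣ n), W n +
        b p * ∑ n ∈ (Base X).filter (fun n => d * p ^ 2 ∣ n), W n -
        3 / 14 * ((X : ℂ) / d) * ((1 + a p / p + b p / (p : ℂ) ^ 2) * E) =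
        (∑ n ∈ (Base X).filter (fun n => d ∣ n), W n - 3 / 14 * ((X : ℂ) / d) * E) +
        a p * (∑ n ∈ (Base X).filter (fun n => d * p ∣ n), W n -
          3 / 14 * ((X : ℂ) / ((d * p : ℕ) : ℂ)) * E) +
        b p * (∑ n ∈ (Base X).filter (fun n => d * p ^ 2 ∣ n), W n -
          3 / 14 * ((X : ℂ) / ((d * p ^ 2 : ℕ) : ℂ)) * E) := by
      push_cast
      field_simp
      ring
    rw [key]
    have hdr : (0 : ℝ) < d := by exact_mod_cast hd
    have hpr : (0 : ℝ) < p := by exact_mod_cast hpos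
    have hXd : (0 : ℝ) ≤ (X : ℝ) / d := by positivity
    have f1 : ((X : ℝ) / ((d * p : ℕ) : ℝ)) ^ s = ((X : ℝ) / d) ^ s * (p : ℝ) ^ (-s) := by
      push_cast
      rw [← div_div, Real.div_rpow hXd hpr.le, Real.rpow_neg hpr.le]
      rfl
    have f2 : ((X : ℝ) / ((d * p ^ 2 : ℕ) : ℝ)) ^ s = ((X : ℝ) / d) ^ s * ((p : ℝ) ^ 2) ^ (-s) := by
      push_cast
      rw [← div_div, Real.div_rpow hXd (by positivity), Real.rpow_neg (by positivity)]
      rfl
    calc _ ≤ ‖∑ n ∈ (Base X).filter (fun n => d ∣ n), W n - 3 / 14 * ((X : ℂ) / d) * E‖ +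
          ‖a p‖ * ‖∑ n ∈ (Base X).filter (fun n => d * p ∣ n), W n -
          3 / 14 * ((X : ℂ) / ((d * p : ℕ) : ℂ)) * E‖ +
          ‖b p‖ * ‖∑ n ∈ (Base X).filter (fun n => d * p ^ 2 ∣ n), W n -
          3 / 14 * ((X : ℂ) / ((d * p ^ 2 : ℕ) : ℂ)) * E‖ := by
          refine (norm_add_le _ _).trans (add_le_add ((norm_add_le _ _).trans ?_) ?_)
          · rw [norm_mul]
          · rw [norm_mul]
      _ ≤ 2 * ((X : ℝ) / d) ^ s * R + ‖a p‖ * (2 * ((X : ℝ) / ((d * p : ℕ) : ℝ)) ^ s * R) +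
          ‖b p‖ * (2 * ((X : ℝ) / ((d * p ^ 2 : ℕ) : ℝ)) ^ s * R) := by
          gcongr
      _ = _ := by
          rw [f1, f2]; ring

end Pool.Agent.L0h74.S4
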