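import Mathlib
import Pool.Agent.L0h74.S4.A

set_option autoImplicit false

/-!
The additive function counting primes `p ≡ 3 mod 4` with the sign `(p/7)`, its truncation, and the
comparison of exponential sums with products.
-/

namespace Pool.Agent.L0h74.S4

open Finset

/-- the sign of a prime -/
def fp (p : ℕ) : ℤ :=
  if p % 4 = 3 ∧ (p % 7 = 1 ∨ p % 7 = 2 ∨ p % 7 = 4) then 1
  else if p % 4 = 3 ∧ (p % 7 = 3 ∨ p % 7 = 5 ∨ p % 7 = 6) then -1 else 0

lemma fp_cases (p : ℕ) : fp p = 1 ∨ fp p = -1 ∨ fp p = 0 := by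
  unfold fp; split_ifs <;> simp

lemma abs_fp (p : ℕ) : |(fp p : ℝ)| ≤ 1 := by
  rcases fp_cases p with h | h | h <;> rw [h] <;> norm_num

lemma fp_two : fp 2 = 0 := by decide
lemma fp_seven : fp 7 = 0 := by decide

/-- the additive function -/
def mm (D : ℕ) : ℤ := ∑ p ∈ D.primeFactors, fp p

/-- the target set -/
def GS (X : ℕ) : Finset ℕ := (Icc 1 X).filter fun D => Squarefree D ∧ D % 4 = 1 ∧ D % 7 ≠ 0

/-- truncated primes -/
def PP (y : ℕ) : Finset ℕ := (Icc 1 y).filter fun p => p.Prime ∧ p ≠ 2 ∧ p ≠ 7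

/-- phases -/
noncomputable def ze (θ : ℝ) (p : ℕ) : ℂ := Complex.exp ((θ * (fp p : ℝ) : ℝ) * Complex.I)

lemma norm_ze (θ : ℝ) (p : ℕ) : ‖ze θ p‖ = 1 := by
  unfold ze; exact Complex.norm_exp_ofReal_mul_I _

/-- the exponential sum -/
noncomputable def SS (X : ℕ) (θ : ℝ) : ℂ :=
  ∑ D ∈ GS X, Complex.exp ((θ * (mm D : ℝ) : ℝ) * Complex.I)

lemma GS_eq (X : ℕ) : GS X = (Base X).filter (fun n => Squarefree n) := by
  ext n
  simp only [GS, Base, mem_filter]
  tauto

lemma norm_exp_sub (u v : ℝ) :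
    ‖Complex.exp (u * Complex.I) - Complex.exp (v * Complex.I)‖ ≤ |u - v| := by
  have h1 : Complex.exp (u * Complex.I) - Complex.exp (v * Complex.I) =
      Complex.exp (v * Complex.I) * (Complex.exp (Complex.I * ((u - v : ℝ) : ℂ)) - 1) := by
    rw [mul_sub, ← Complex.exp_add, mul_one]
    congr 2
    push_cast; ring
  rw [h1, norm_mul, Complex.norm_exp_ofReal_mul_I, one_mul]
  have := Real.norm_exp_I_mul_ofReal_sub_one_le (x := u - v)
  simpa using this

lemma G_sq (θ : ℝ) (p n : ℕ) (h : p ^ 2 ∣ n) :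
    G (fun p => ze θ p - 1) (fun p => - ze θ p) p n = 0 := by
  have h1 : p ∣ n := (Dvd.intro_left (p ^ 1) (by ring)).trans h
  simp [G, h, h1]

lemma G_one (θ : ℝ) (p n : ℕ) (h1 : p ∣ n) (h : ¬ p ^ 2 ∣ n) :
    G (fun p => ze θ p - 1) (fun p => - ze θ p) p n = ze θ p := by
  simp [G, h, h1]

lemma G_zero (θ : ℝ) (p n : ℕ) (h1 : ¬ p ∣ n) :
    G (fun p => ze θ p - 1) (fun p => - ze θ p) p n = 1 := by
  have h : ¬ p ^ 2 ∣ n := fun h => h1 ((Dvd.intro_left (p ^ 1) (by ring)).trans h)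
  simp [G, h, h1]

lemma norm_G_le (θ : ℝ) (p n : ℕ) :
    ‖G (fun p => ze θ p - 1) (fun p => - ze θ p) p n‖ ≤ 1 := by
  by_cases h1 : p ∣ n
  · by_cases h2 : p ^ 2 ∣ n
    · rw [G_sq θ p n h2]; simp
    · rw [G_one θ p n h1 h2, norm_ze]
  · rw [G_zero θ p n h1]; simp

/-- large primes -/
def LP (y X : ℕ) : Finset ℕ := (Ioc y X).filter fun p => p.Prime

lemma pointwise (X y : ℕ) (θ : ℝ) (n : ℕ) (hn : n ∈ Base X) :
    ‖∏ p ∈ PP y, G (fun p => ze θ p - 1) (fun p => - ze θ p) p n -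
      (if Squarefree n then Complex.exp ((θ * (mm n : ℝ) : ℝ) * Complex.I) else 0)‖ ≤
    |θ| * (∑ p ∈ LP y X, if p ∣ n then (1 : ℝ) else 0) +
      ∑ p ∈ LP y X, if p ^ 2 ∣ n then (1 : ℝ) else 0 := by
  classical
  have hb := hn
  simp only [Base, mem_filter, mem_Icc] at hb
  obtain ⟨⟨hn1, hnX⟩, hn4, hn7⟩ := hb
  have hn0 : n ≠ 0 := by omega
  have hA0 : (0 : ℝ) ≤ ∑ p ∈ LP y X, if p ∣ n then (1 : ℝ) else 0 :=
    Finset.sum_nonneg (fun p _ => by split_ifs <;> norm_num)
  have hB0 : (0 : ℝ) ≤ ∑ p ∈ LP y X, if p ^ 2 ∣ n then (1 : ℝ) else 0 :=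
    Finset.sum_nonneg (fun p _ => by split_ifs <;> norm_num)
  by_cases hsq : Squarefree n
  · rw [if_pos hsq]
    have hns : ∀ p ∈ PP y, ¬ p ^ 2 ∣ n := by
      intro p hp h
      simp only [PP, mem_filter] at hp
      have := hsq p (by rw [← pow_two]; exact h)
      exact hp.2.1.one_lt.ne' (Nat.isUnit_iff.1 this)
    have h1 : ∏ p ∈ PP y, G (fun p => ze θ p - 1) (fun p => - ze θ p) p n =
        Complex.exp ((θ * ((∑ p ∈ (PP y).filter (fun p => p ∣ n), fp p : ℤ) : ℝ) : ℝ) *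
          Complex.I) := by
      have e1 : ∏ p ∈ PP y, G (fun p => ze θ p - 1) (fun p => - ze θ p) p n =
          ∏ p ∈ (PP y).filter (fun p => p ∣ n), ze θ p := by
        rw [Finset.prod_filter]
        apply Finset.prod_congr rfl
        intro p hp
        split_ifs with h
        · exact G_one θ p n h (hns p hp)
        · exact G_zero θ p n h
      rw [e1]
      simp only [ze]
      rw [← Complex.exp_sum]
      congr 1
      push_cast
      rw [Finset.mul_sum, Finset.sum_mul]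
    rw [h1]
    refine (norm_exp_sub _ _).trans ?_
    have h2 : mm n = ∑ p ∈ (PP y).filter (fun p => p ∣ n), fp p +
        ∑ p ∈ (LP y X).filter (fun p => p ∣ n), fp p := by
      have hdis : Disjoint ((PP y).filter (fun p => p ∣ n)) ((LP y X).filter (fun p => p ∣ n)) := by
        rw [Finset.disjoint_left]
        intro p h1 h2
        simp only [PP, LP, mem_filter, mem_Icc, mem_Ioc] at h1 h2
        omega
      rw [← Finset.sum_union hdis, mm]
      symm
      apply Finset.sum_subset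
      · intro p hp
        simp only [mem_union, PP, LP, mem_filter, mem_Icc, mem_Ioc] at hp
        rw [Nat.mem_primeFactors]
        rcases hp with hp | hp
        · exact ⟨hp.1.2.1, hp.2, hn0⟩
        · exact ⟨hp.1.2, hp.2, hn0⟩
      · intro p hp hp2
        rw [Nat.mem_primeFactors] at hp
        by_cases p2 : p = 2
        · rw [p2]; exact fp_two
        by_cases p7 : p = 7
        · rw [p7]; exact fp_seven
        exfalso
        apply hp2
        simp only [mem_union, PP, LP, mem_filter, mem_Icc, mem_Ioc]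
        have hle := Nat.le_of_dvd (by omega) hp.2.1
        by_cases hpy : p ≤ y
        · left; exact ⟨⟨⟨hp.1.one_lt.le, hpy⟩, hp.1, p2, p7⟩, hp.2.1⟩
        · right; exact ⟨⟨⟨by omega, by omega⟩, hp.1⟩, hp.2.1⟩
    rw [h2, ← mul_sub, abs_mul]
    have h3 : |((∑ p ∈ (PP y).filter (fun p => p ∣ n), fp p : ℤ) : ℝ) -
        ((∑ p ∈ (PP y).filter (fun p => p ∣ n), fp p +
        ∑ p ∈ (LP y X).filter (fun p => p ∣ n), fp p : ℤ) : ℝ)| ≤
        ∑ p ∈ LP y X, if p ∣ n then (1 : ℝ) else 0 := by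
      push_cast
      rw [sub_add_cancel_left, abs_neg]
      refine (Finset.abs_sum_le_sum_abs _ _).trans ?_
      rw [← Finset.sum_filter]
      exact Finset.sum_le_sum (fun p _ => abs_fp p)
    have h4 := mul_le_mul_of_nonneg_left h3 (abs_nonneg θ)
    linarith
  · rw [if_neg hsq, sub_zero]
    have h0 : 0 ≤ |θ| * (∑ p ∈ LP y X, if p ∣ n then (1 : ℝ) else 0) :=
      mul_nonneg (abs_nonneg _) hA0
    obtain ⟨p, hp, hpn⟩ : ∃ p, p.Prime ∧ p ^ 2 ∣ n := by
      by_contra hcon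
      push Not at hcon
      apply hsq
      rw [Nat.squarefree_iff_prime_squarefree]
      intro p hp h
      exact hcon p hp (by rw [pow_two]; exact h)
    have hpd : p ∣ n := (Dvd.intro_left (p ^ 1) (by ring)).trans hpn
    have p2 : p ≠ 2 := by
      rintro rfl
      omega
    have p7 : p ≠ 7 := by
      rintro rfl
      omega
    by_cases hpy : p ≤ y
    · have hmem : p ∈ PP y := by
        simp only [PP, mem_filter, mem_Icc]
        exact ⟨⟨hp.one_lt.le, hpy⟩, hp, p2, p7⟩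
      rw [Finset.prod_eq_zero hmem (G_sq θ p n hpn), norm_zero]
      linarith
    · have hmem : p ∈ LP y X := by
        simp only [LP, mem_filter, mem_Ioc]
        have hle := Nat.le_of_dvd (by omega) hpd
        exact ⟨⟨by omega, by omega⟩, hp⟩
      have h5 : ‖∏ p ∈ PP y, G (fun p => ze θ p - 1) (fun p => - ze θ p) p n‖ ≤ 1 := by
        rw [norm_prod]
        exact Finset.prod_le_one (fun _ _ => norm_nonneg _) (fun p _ => norm_G_le θ p n)
      have h6 : (1 : ℝ) ≤ ∑ p ∈ LP y X, if p ^ 2 ∣ n then (1 : ℝ) else 0 := by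
        calc (1 : ℝ) = if p ^ 2 ∣ n then (1 : ℝ) else 0 := by rw [if_pos hpn]
          _ ≤ _ := Finset.single_le_sum (f := fun p => if p ^ 2 ∣ n then (1 : ℝ) else 0)
              (fun q _ => by split_ifs <;> norm_num) hmem
      linarith

lemma card_dvd_le (X d : ℕ) :
    ∑ n ∈ Base X, (if d ∣ n then (1 : ℝ) else 0) ≤ X / d := by
  rw [← Finset.sum_filter]
  simp only [Finset.sum_const, nsmul_eq_mul, mul_one]
  have h1 : ((Base X).filter (fun n => d ∣ n)).card ≤ X / d := by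
    have h2 : (Base X).filter (fun n => d ∣ n) ⊆ (Ioc 0 X).filter (fun n => d ∣ n) := by
      intro n hn
      simp only [Base, mem_filter, mem_Icc, mem_Ioc] at hn ⊢
      exact ⟨⟨by omega, hn.1.1.2⟩, hn.2⟩
    refine (Finset.card_le_card h2).trans ?_
    rw [Nat.Ioc_filter_dvd_card_eq_div]
  calc (((Base X).filter (fun n => d ∣ n)).card : ℝ) ≤ ((X / d : ℕ) : ℝ) := by exact_mod_cast h1
    _ ≤ X / d := Nat.cast_div_le

theorem compare (X y : ℕ) (θ : ℝ) :
    ‖∑ n ∈ Base X, ∏ p ∈ PP y, G (fun p => ze θ p - 1) (fun p => - ze θ p) p n - SS X θ‖ ≤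
    |θ| * (X * ∑ p ∈ LP y X, (1 : ℝ) / p) + X * ∑ p ∈ LP y X, (1 : ℝ) / (p : ℝ) ^ 2 := by
  have h1 : SS X θ = ∑ n ∈ Base X,
      (if Squarefree n then Complex.exp ((θ * (mm n : ℝ) : ℝ) * Complex.I) else 0) := by
    rw [SS, GS_eq, Finset.sum_filter]
  rw [h1, ← Finset.sum_sub_distrib]
  refine (norm_sum_le _ _).trans ?_
  refine (Finset.sum_le_sum (fun n hn => pointwise X y θ n hn)).trans ?_
  rw [Finset.sum_add_distrib, ← Finset.mul_sum, Finset.sum_comm (s := Base X),
    Finset.sum_comm (s := Base X)]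
  refine add_le_add (mul_le_mul_of_nonneg_left ?_ (abs_nonneg _)) ?_
  · rw [Finset.mul_sum]
    apply Finset.sum_le_sum
    intro p _
    refine (card_dvd_le X p).trans (le_of_eq (by ring))
  · rw [Finset.mul_sum]
    apply Finset.sum_le_sum
    intro p _
    refine (card_dvd_le X (p ^ 2)).trans (le_of_eq (by push_cast; ring))

end Pool.Agent.L0h74.S4
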