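import Mathlib
import Pool.Agent.L0h74.S4.C

set_option autoImplicit false

/-!
Product estimates.
-/

namespace Pool.Agent.L0h74.S4

open Finset

lemma norm_prod_sub_prod (P : Finset ℕ) (a b : ℕ → ℂ) (ha : ∀ p ∈ P, ‖a p‖ ≤ 1)
    (hb : ∀ p ∈ P, ‖b p‖ ≤ 1) :
    ‖∏ p ∈ P, a p - ∏ p ∈ P, b p‖ ≤ ∑ p ∈ P, ‖a p - b p‖ := by
  classical
  induction P using Finset.induction_on with
  | empty => simp
  | insert p P hp ih =>
    rw [Finset.prod_insert hp, Finset.prod_insert hp, Finset.sum_insert hp]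
    have ih' := ih (fun q hq => ha q (mem_insert_of_mem hq)) (fun q hq => hb q (mem_insert_of_mem hq))
    have e1 : a p * ∏ q ∈ P, a q - b p * ∏ q ∈ P, b q =
        (a p - b p) * ∏ q ∈ P, a q + b p * (∏ q ∈ P, a q - ∏ q ∈ P, b q) := by ring
    rw [e1]
    refine (norm_add_le _ _).trans (add_le_add ?_ ?_)
    · rw [norm_mul]
      have h1 : ‖∏ q ∈ P, a q‖ ≤ 1 := by
        rw [norm_prod]
        exact Finset.prod_le_one (fun _ _ => norm_nonneg _) (fun q hq => ha q (mem_insert_of_mem hq))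
      exact mul_le_of_le_one_right (norm_nonneg _) h1
    · rw [norm_mul]
      exact (mul_le_of_le_one_left (norm_nonneg _) (hb p (mem_insert_self _ _))).trans ih'

lemma exp3 (x : ℝ) (hx : |x| ≤ 1) :
    ‖Complex.exp (x * Complex.I) - 1 - x * Complex.I + (x : ℂ) ^ 2 / 2‖ ≤ |x| ^ 3 := by
  have h1 : ‖(x : ℂ) * Complex.I‖ = |x| := by simp
  have h := Complex.exp_bound (x := (x : ℂ) * Complex.I) (by rw [h1]; exact hx) (n := 3)
    (by norm_num)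
  have e1 : ∑ m ∈ range 3, ((x : ℂ) * Complex.I) ^ m / (m.factorial : ℂ) =
      1 + x * Complex.I - (x : ℂ) ^ 2 / 2 := by
    have e0 : ((x : ℂ) * Complex.I) ^ 2 = - (x : ℂ) ^ 2 := by
      rw [mul_pow, Complex.I_sq]; ring
    simp only [Finset.sum_range_succ, Finset.sum_range_zero, Nat.factorial]
    rw [e0]
    push_cast
    ring
  rw [e1, h1] at h
  have e2 : Complex.exp (x * Complex.I) - 1 - x * Complex.I + (x : ℂ) ^ 2 / 2 =
      Complex.exp (x * Complex.I) - (1 + x * Complex.I - (x : ℂ) ^ 2 / 2) := by ring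
  rw [e2]
  refine h.trans ?_
  have h3 : 0 ≤ |x| ^ 3 := by positivity
  have h4 : ((Nat.succ 3 : ℕ) : ℝ) * (((Nat.factorial 3 : ℕ) : ℝ) * ((3 : ℕ) : ℝ))⁻¹ ≤ 1 := by
    simp only [Nat.factorial]
    norm_num
  calc |x| ^ 3 * (((Nat.succ 3 : ℕ) : ℝ) * (((Nat.factorial 3 : ℕ) : ℝ) * ((3 : ℕ) : ℝ))⁻¹)
      ≤ |x| ^ 3 * 1 := mul_le_mul_of_nonneg_left h4 h3
    _ = |x| ^ 3 := mul_one _

/-- the local factor of the main term divided by `1 - 1/p²` -/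
noncomputable def av (θ : ℝ) (p : ℕ) : ℂ := 1 + (ze θ p - 1) / ((p : ℂ) + 1)

/-- the gaussian approximation of the local factor -/
noncomputable def bv (θ : ℝ) (p : ℕ) : ℂ :=
  Complex.exp ((((θ * (fp p : ℝ) : ℝ) : ℂ) * Complex.I - ((θ * (fp p : ℝ) : ℝ) : ℂ) ^ 2 / 2) /
    ((p : ℂ) + 1))

lemma norm_av (θ : ℝ) (p : ℕ) : ‖av θ p‖ ≤ 1 := by
  have hp : (0 : ℝ) < (p : ℝ) + 1 := by positivity
  have hpc : ((p : ℂ) + 1) ≠ 0 := by exact_mod_cast hp.ne'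
  have e : av θ p = ((p : ℂ) + ze θ p) / ((p : ℂ) + 1) := by
    unfold av; field_simp; ring
  rw [e, norm_div]
  have h1 : ‖(p : ℂ) + 1‖ = (p : ℝ) + 1 := by
    have : ((p : ℂ) + 1) = (((p : ℝ) + 1 : ℝ) : ℂ) := by push_cast; rfl
    rw [this, Complex.norm_real, Real.norm_eq_abs, abs_of_pos hp]
  rw [h1, div_le_one hp]
  refine (norm_add_le _ _).trans ?_
  rw [norm_ze]
  simp

lemma norm_bv (θ : ℝ) (p : ℕ) : ‖bv θ p‖ ≤ 1 := by
  unfold bv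
  rw [Complex.norm_exp]
  have e : ((((θ * (fp p : ℝ) : ℝ) : ℂ) * Complex.I - ((θ * (fp p : ℝ) : ℝ) : ℂ) ^ 2 / 2) /
    ((p : ℂ) + 1)).re = - ((θ * (fp p : ℝ)) ^ 2 / 2 / ((p : ℝ) + 1)) := by
    have h1 : (((((θ * (fp p : ℝ) : ℝ) : ℂ) * Complex.I - ((θ * (fp p : ℝ) : ℝ) : ℂ) ^ 2 / 2) /
      ((p : ℂ) + 1))) = ((- ((θ * (fp p : ℝ)) ^ 2 / 2 / ((p : ℝ) + 1)) : ℝ) : ℂ) +
        (((θ * (fp p : ℝ)) / ((p : ℝ) + 1) : ℝ) : ℂ) * Complex.I := by
      push_cast; ring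
    rw [h1, Complex.add_re, Complex.ofReal_re, Complex.re_ofReal_mul, Complex.I_re, mul_zero,
      add_zero]
  rw [e]
  apply Real.exp_le_one_iff.2
  have : 0 ≤ (θ * (fp p : ℝ)) ^ 2 / 2 / ((p : ℝ) + 1) := by positivity
  linarith

lemma norm_av_sub_bv (θ : ℝ) (hθ : |θ| ≤ 1) (p : ℕ) (hp1 : 1 ≤ p) :
    ‖av θ p - bv θ p‖ ≤ |θ| ^ 3 * (1 / p) + 4 * |θ| ^ 2 * (1 / (p : ℝ) ^ 2) := by
  set x : ℝ := θ * (fp p : ℝ) with hx
  have hxθ : |x| ≤ |θ| := by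
    rw [hx, abs_mul]
    exact mul_le_of_le_one_right (abs_nonneg _) (abs_fp p)
  have hx1 : |x| ≤ 1 := hxθ.trans hθ
  have hp : (0 : ℝ) < (p : ℝ) + 1 := by positivity
  have hp0 : (0 : ℝ) < (p : ℝ) := by exact_mod_cast hp1
  have h1 : ‖(p : ℂ) + 1‖ = (p : ℝ) + 1 := by
    have : ((p : ℂ) + 1) = (((p : ℝ) + 1 : ℝ) : ℂ) := by push_cast; rfl
    rw [this, Complex.norm_real, Real.norm_eq_abs, abs_of_pos hp]
  set v : ℂ := ((x : ℂ) * Complex.I - (x : ℂ) ^ 2 / 2) / ((p : ℂ) + 1) with hv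
  have hvn : ‖v‖ ≤ 2 * |θ| / ((p : ℝ) + 1) := by
    rw [hv, norm_div, h1]
    apply div_le_div_of_nonneg_right _ hp.le
    refine (norm_sub_le _ _).trans ?_
    have e1 : ‖(x : ℂ) * Complex.I‖ = |x| := by simp
    have e2 : ‖(x : ℂ) ^ 2 / 2‖ = |x| ^ 2 / 2 := by simp
    rw [e1, e2]
    have : |x| ^ 2 ≤ |θ| := by
      calc |x| ^ 2 = |x| * |x| := by ring
        _ ≤ |θ| * 1 := mul_le_mul hxθ hx1 (abs_nonneg _) (abs_nonneg _)
        _ = |θ| := mul_one _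
    have := abs_nonneg θ
    linarith
  have hvn1 : ‖v‖ ≤ 1 := by
    refine hvn.trans ?_
    rw [div_le_one hp]
    have : (1 : ℝ) ≤ p := by exact_mod_cast hp1
    linarith
  have hexp := Complex.norm_exp_sub_one_sub_id_le hvn1
  have e1 : av θ p - bv θ p = (Complex.exp (x * Complex.I) - 1 - x * Complex.I + (x : ℂ) ^ 2 / 2) /
      ((p : ℂ) + 1) - (Complex.exp v - 1 - v) := by
    unfold av bv ze
    rw [← hx, ← hv]
    rw [hv]
    ring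
  rw [e1]
  refine (norm_sub_le _ _).trans (add_le_add ?_ ?_)
  · rw [norm_div, h1]
    calc ‖Complex.exp (x * Complex.I) - 1 - x * Complex.I + (x : ℂ) ^ 2 / 2‖ / ((p : ℝ) + 1)
        ≤ |θ| ^ 3 / p := by
          apply div_le_div₀ (by positivity) _ hp0 (by linarith)
          exact (exp3 x hx1).trans (pow_le_pow_left₀ (abs_nonneg _) hxθ 3)
      _ = |θ| ^ 3 * (1 / p) := by ring
  · refine hexp.trans ?_
    calc ‖v‖ ^ 2 ≤ (2 * |θ| / p) ^ 2 := by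
          apply pow_le_pow_left₀ (norm_nonneg _)
          refine hvn.trans ?_
          apply div_le_div_of_nonneg_left (by positivity) hp0 (by linarith)
      _ = 4 * |θ| ^ 2 * (1 / (p : ℝ) ^ 2) := by
          rw [div_pow]; ring

theorem prod_av (θ : ℝ) (hθ : |θ| ≤ 1) (P : Finset ℕ) (hP : ∀ p ∈ P, 1 ≤ p) :
    ‖∏ p ∈ P, av θ p - Complex.exp ((((θ * ∑ p ∈ P, (fp p : ℝ) / ((p : ℝ) + 1) : ℝ)) : ℂ) * Complex.I
      - ((θ ^ 2 / 2 * ∑ p ∈ P, (fp p : ℝ) ^ 2 / ((p : ℝ) + 1) : ℝ) : ℂ))‖ ≤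
    |θ| ^ 3 * ∑ p ∈ P, (1 : ℝ) / p + 4 * |θ| ^ 2 * ∑ p ∈ P, (1 : ℝ) / (p : ℝ) ^ 2 := by
  have h1 : Complex.exp ((((θ * ∑ p ∈ P, (fp p : ℝ) / ((p : ℝ) + 1) : ℝ)) : ℂ) * Complex.I
      - ((θ ^ 2 / 2 * ∑ p ∈ P, (fp p : ℝ) ^ 2 / ((p : ℝ) + 1) : ℝ) : ℂ)) = ∏ p ∈ P, bv θ p := by
    simp only [bv]
    rw [← Complex.exp_sum]
    congr 1
    push_cast
    rw [Finset.mul_sum, Finset.sum_mul, Finset.mul_sum, ← Finset.sum_sub_distrib]
    apply Finset.sum_congr rfl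
    intro p _
    ring
  rw [h1]
  refine (norm_prod_sub_prod P _ _ (fun p _ => norm_av θ p) (fun p _ => norm_bv θ p)).trans ?_
  rw [Finset.mul_sum, Finset.mul_sum, ← Finset.sum_add_distrib]
  exact Finset.sum_le_sum (fun p hp => norm_av_sub_bv θ hθ p (hP p hp))

/-- the constant -/
noncomputable def KK (y : ℕ) : ℝ := ∏ p ∈ PP y, (1 - 1 / (p : ℝ) ^ 2)

lemma main_factor (θ : ℝ) (y : ℕ) :
    ∏ p ∈ PP y, (1 + (ze θ p - 1) / p + (- ze θ p) / (p : ℂ) ^ 2) =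
      (KK y : ℂ) * ∏ p ∈ PP y, av θ p := by
  unfold KK
  rw [Complex.ofReal_prod, ← Finset.prod_mul_distrib]
  apply Finset.prod_congr rfl
  intro p hp
  simp only [PP, mem_filter, mem_Icc] at hp
  have hp0 : (p : ℂ) ≠ 0 := by exact_mod_cast hp.2.1.ne_zero
  have hp1 : (p : ℂ) + 1 ≠ 0 := by exact_mod_cast Nat.succ_ne_zero p
  unfold av
  push_cast
  field_simp
  ring

lemma tele (N : ℕ) (hN : 1 ≤ N) : ∏ n ∈ Icc 2 N, (1 - 1 / (n : ℝ) ^ 2) = ((N : ℝ) + 1) / (2 * N) := by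
  induction N, hN using Nat.le_induction with
  | base => norm_num
  | succ N hN ih =>
    rw [Finset.prod_Icc_succ_top (by omega), ih]
    have h0 : (N : ℝ) ≠ 0 := by exact_mod_cast (by omega : N ≠ 0)
    have h1 : (N : ℝ) + 1 ≠ 0 := by positivity
    push_cast
    field_simp
    ring

lemma KK_ge (y : ℕ) (hy : 1 ≤ y) : 1 / 2 ≤ KK y := by
  have hsub : PP y ⊆ Icc 2 y := by
    intro p hp
    simp only [PP, mem_filter, mem_Icc] at hp ⊢
    exact ⟨hp.2.1.two_le, hp.1.2⟩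
  have hf : ∀ n ∈ Icc 2 y, (0 : ℝ) ≤ 1 - 1 / (n : ℝ) ^ 2 ∧ 1 - 1 / (n : ℝ) ^ 2 ≤ 1 := by
    intro n hn
    have h2 : (2 : ℝ) ≤ n := by exact_mod_cast (mem_Icc.1 hn).1
    constructor
    · rw [sub_nonneg, div_le_one (by positivity)]
      nlinarith
    · have : 0 ≤ 1 / (n : ℝ) ^ 2 := by positivity
      linarith
  have h1 : (∏ n ∈ Icc 2 y \ PP y, (1 - 1 / (n : ℝ) ^ 2)) * KK y =
      ∏ n ∈ Icc 2 y, (1 - 1 / (n : ℝ) ^ 2) := Finset.prod_sdiff hsub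
  have h2 : (∏ n ∈ Icc 2 y \ PP y, (1 - 1 / (n : ℝ) ^ 2)) ≤ 1 :=
    Finset.prod_le_one (fun n hn => (hf n (mem_sdiff.1 hn).1).1)
      (fun n hn => (hf n (mem_sdiff.1 hn).1).2)
  have h3 : 0 ≤ KK y := Finset.prod_nonneg (fun n hn => (hf n (hsub hn)).1)
  rw [tele y hy] at h1
  have hy0 : (0 : ℝ) < y := by exact_mod_cast hy
  have h4 : (1 : ℝ) / 2 ≤ (y + 1) / (2 * y) := by
    rw [div_le_div_iff₀ (by norm_num) (by positivity)]
    linarith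
  have h5 : (∏ n ∈ Icc 2 y \ PP y, (1 - 1 / (n : ℝ) ^ 2)) * KK y ≤ KK y :=
    mul_le_of_le_one_left h3 h2
  linarith

lemma KK_le (y : ℕ) : KK y ≤ 1 := by
  apply Finset.prod_le_one
  · intro p hp
    simp only [PP, mem_filter, mem_Icc] at hp
    have h2 : (2 : ℝ) ≤ p := by exact_mod_cast hp.2.1.two_le
    rw [sub_nonneg, div_le_one (by positivity)]
    nlinarith
  · intro p _
    have : 0 ≤ 1 / (p : ℝ) ^ 2 := by positivity
    linarith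

lemma sum_sq_PP (y : ℕ) (hy : 1 ≤ y) : ∑ p ∈ PP y, (1 : ℝ) / (p : ℝ) ^ 2 ≤ 1 := by
  have hsub : PP y ⊆ Ioc 1 y := by
    intro p hp
    simp only [PP, mem_filter, mem_Icc, mem_Ioc] at hp ⊢
    exact ⟨hp.2.1.one_lt, hp.1.2⟩
  calc ∑ p ∈ PP y, (1 : ℝ) / (p : ℝ) ^ 2 ≤ ∑ p ∈ Ioc 1 y, (1 : ℝ) / (p : ℝ) ^ 2 :=
        Finset.sum_le_sum_of_subset_of_nonneg hsub (fun _ _ _ => by positivity)
    _ = ∑ p ∈ Ioc 1 y, ((p : ℝ) ^ 2)⁻¹ := by simp only [one_div]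
    _ ≤ ((1 : ℕ) : ℝ)⁻¹ - (y : ℝ)⁻¹ := sum_Ioc_inv_sq_le_sub (by norm_num) hy
    _ ≤ 1 := by
        have : (0 : ℝ) ≤ (y : ℝ)⁻¹ := by positivity
        push_cast
        linarith

lemma sum_sq_LP (y X : ℕ) (hy : 1 ≤ y) : ∑ p ∈ LP y X, (1 : ℝ) / (p : ℝ) ^ 2 ≤ 1 / y := by
  rcases le_total y X with h | h
  · calc ∑ p ∈ LP y X, (1 : ℝ) / (p : ℝ) ^ 2 ≤ ∑ p ∈ Ioc y X, (1 : ℝ) / (p : ℝ) ^ 2 :=
        Finset.sum_le_sum_of_subset_of_nonneg (filter_subset _ _) (fun _ _ _ => by positivity)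
      _ = ∑ p ∈ Ioc y X, ((p : ℝ) ^ 2)⁻¹ := by simp only [one_div]
      _ ≤ (y : ℝ)⁻¹ - (X : ℝ)⁻¹ := sum_Ioc_inv_sq_le_sub (by omega) h
      _ ≤ 1 / y := by
        have : (0 : ℝ) ≤ (X : ℝ)⁻¹ := by positivity
        rw [one_div]
        linarith
  · have : LP y X = ∅ := by
      unfold LP
      rw [Finset.Ioc_eq_empty (by omega)]
      simp
    rw [this]
    simp

/-- The Rankin error bound -/
lemma err (X y : ℕ) (hX : 1 ≤ X) (hy : 1 ≤ y) (δ : ℝ) (hδ0 : 0 ≤ δ) (hyδ : (y : ℝ) ^ δ ≤ Real.exp 1)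
    (θ : ℝ) :
    2 * ((X : ℝ) / (1 : ℕ)) ^ (1 - δ) *
        ∏ p ∈ PP y, (1 + ‖ze θ p - 1‖ * (p : ℝ) ^ (-(1 - δ)) +
          ‖- ze θ p‖ * ((p : ℝ) ^ 2) ^ (-(1 - δ))) ≤
    2 * X * Real.exp (- (δ * Real.log X) +
      (Real.exp 1 * |θ| * (∑ p ∈ PP y, (1 : ℝ) / p) + Real.exp 2)) := by
  have hX0 : (0 : ℝ) < X := by exact_mod_cast hX
  have h1 : ((X : ℝ) / (1 : ℕ)) ^ (1 - δ) = X * Real.exp (-(δ * Real.log X)) := by
    rw [Nat.cast_one, div_one, Real.rpow_def_of_pos hX0]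
    have : Real.log X * (1 - δ) = Real.log X + (-(δ * Real.log X)) := by ring
    rw [this, Real.exp_add, Real.exp_log hX0]
  have h2 : ∏ p ∈ PP y, (1 + ‖ze θ p - 1‖ * (p : ℝ) ^ (-(1 - δ)) +
          ‖- ze θ p‖ * ((p : ℝ) ^ 2) ^ (-(1 - δ))) ≤
      Real.exp (Real.exp 1 * |θ| * (∑ p ∈ PP y, (1 : ℝ) / p) + Real.exp 2) := by
    calc _ ≤ ∏ p ∈ PP y, Real.exp (Real.exp 1 * |θ| * (1 / p) + Real.exp 2 * (1 / (p : ℝ) ^ 2)) := by
          apply Finset.prod_le_prod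
          · intro p hp
            have : (0 : ℝ) ≤ (p : ℝ) ^ (-(1 - δ)) := Real.rpow_nonneg (Nat.cast_nonneg _) _
            have : (0 : ℝ) ≤ ((p : ℝ) ^ 2) ^ (-(1 - δ)) := Real.rpow_nonneg (by positivity) _
            positivity
          · intro p hp
            simp only [PP, mem_filter, mem_Icc] at hp
            have hp0 : (0 : ℝ) < p := by exact_mod_cast hp.2.1.pos
            have hpy : (p : ℝ) ≤ y := by exact_mod_cast hp.1.2
            have hpδ : (p : ℝ) ^ δ ≤ Real.exp 1 :=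
              (Real.rpow_le_rpow hp0.le hpy hδ0).trans hyδ
            have hpδ0 : 0 ≤ (p : ℝ) ^ δ := Real.rpow_nonneg hp0.le _
            have e1 : (p : ℝ) ^ (-(1 - δ)) = (p : ℝ) ^ δ * (1 / p) := by
              rw [neg_sub, Real.rpow_sub hp0, Real.rpow_one]
              ring
            have e2 : ((p : ℝ) ^ 2) ^ (-(1 - δ)) = ((p : ℝ) ^ δ) ^ 2 * (1 / (p : ℝ) ^ 2) := by
              have : ((p : ℝ) ^ 2) ^ (-(1 - δ)) = ((p : ℝ) ^ (-(1 - δ))) ^ 2 := by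
                rw [← Real.rpow_natCast, ← Real.rpow_natCast, ← Real.rpow_mul hp0.le,
                  ← Real.rpow_mul hp0.le]
                ring_nf
              rw [this, e1]
              ring
            have e3 : ‖ze θ p - 1‖ ≤ |θ| := by
              have := norm_exp_sub (θ * (fp p : ℝ)) 0
              simp only [Complex.ofReal_zero, zero_mul, Complex.exp_zero, sub_zero] at this
              refine this.trans ?_
              rw [abs_mul]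
              exact mul_le_of_le_one_right (abs_nonneg _) (abs_fp p)
            have e4 : ‖- ze θ p‖ = 1 := by rw [norm_neg, norm_ze]
            rw [e1, e2, e4]
            have e5 : ((p : ℝ) ^ δ) ^ 2 ≤ Real.exp 2 := by
              calc ((p : ℝ) ^ δ) ^ 2 ≤ (Real.exp 1) ^ 2 := pow_le_pow_left₀ hpδ0 hpδ 2
                _ = Real.exp 2 := by rw [← Real.exp_nat_mul]; norm_num
            have e6 : ‖ze θ p - 1‖ * ((p : ℝ) ^ δ * (1 / p)) ≤ Real.exp 1 * |θ| * (1 / p) := by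
              calc ‖ze θ p - 1‖ * ((p : ℝ) ^ δ * (1 / p)) ≤ |θ| * (Real.exp 1 * (1 / p)) := by
                    gcongr
                _ = _ := by ring
            have e7 : 1 * (((p : ℝ) ^ δ) ^ 2 * (1 / (p : ℝ) ^ 2)) ≤
                Real.exp 2 * (1 / (p : ℝ) ^ 2) := by
              rw [one_mul]; gcongr
            have e8 := Real.add_one_le_exp (Real.exp 1 * |θ| * (1 / p) +
              Real.exp 2 * (1 / (p : ℝ) ^ 2))
            linarith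
      _ = Real.exp (Real.exp 1 * |θ| * (∑ p ∈ PP y, (1 : ℝ) / p) +
            Real.exp 2 * ∑ p ∈ PP y, 1 / (p : ℝ) ^ 2) := by
          rw [← Real.exp_sum, Finset.sum_add_distrib, Finset.mul_sum, Finset.mul_sum]
      _ ≤ _ := by
          apply Real.exp_le_exp.2
          have := sum_sq_PP y hy
          have h0 : 0 < Real.exp 2 := Real.exp_pos _
          nlinarith
  rw [h1, Real.exp_add]
  have h3 : 0 ≤ 2 * (X * Real.exp (-(δ * Real.log X))) := by positivity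
  calc _ ≤ 2 * (X * Real.exp (-(δ * Real.log X))) *
        Real.exp (Real.exp 1 * |θ| * (∑ p ∈ PP y, (1 : ℝ) / p) + Real.exp 2) :=
        mul_le_mul_of_nonneg_left h2 h3
    _ = _ := by ring

/-- The combined estimate for the exponential sum. -/
theorem SS_est (X y : ℕ) (hX : 1 ≤ X) (hy : 1 ≤ y) (δ : ℝ) (hδ0 : 0 ≤ δ) (hδ1 : δ ≤ 1)
    (hyδ : (y : ℝ) ^ δ ≤ Real.exp 1) (θ : ℝ) :
    ‖SS X θ / X - 3 / 14 * KK y * ∏ p ∈ PP y, av θ p‖ ≤
      2 * Real.exp (- (δ * Real.log X) +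
        (Real.exp 1 * |θ| * (∑ p ∈ PP y, (1 : ℝ) / p) + Real.exp 2)) +
      |θ| * (∑ p ∈ LP y X, (1 : ℝ) / p) + 1 / y := by
  have hX0 : (0 : ℝ) < X := by exact_mod_cast hX
  have hXc : (X : ℂ) ≠ 0 := by exact_mod_cast hX0.ne'
  have h1 := rankin X (s := 1 - δ) (by linarith) (by linarith) (fun p => ze θ p - 1)
    (fun p => - ze θ p) (PP y) (by
      intro p hp
      simp only [PP, mem_filter] at hp
      exact ⟨hp.2.1, hp.2.2.1, hp.2.2.2⟩) 1 one_pos (by norm_num) (by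
      intro p hp h
      simp only [PP, mem_filter] at hp
      exact hp.2.1.one_lt.ne' (Nat.dvd_one.1 h))
  rw [main_factor] at h1
  have h2 : (Base X).filter (fun n => 1 ∣ n) = Base X := by simp
  rw [h2] at h1
  have h3 := h1.trans (err X y hX hy δ hδ0 hyδ θ)
  have h4 := compare X y θ
  have h5 := sum_sq_LP y X hy
  set H : ℂ := ∑ n ∈ Base X, ∏ p ∈ PP y, G (fun p => ze θ p - 1) (fun p => - ze θ p) p n with hH
  have e1 : SS X θ / X - 3 / 14 * KK y * ∏ p ∈ PP y, av θ p =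
      ((H - 3 / 14 * ((X : ℂ) / (1 : ℕ)) * ((KK y : ℂ) * ∏ p ∈ PP y, av θ p)) - (H - SS X θ)) / X := by
    push_cast
    field_simp
    ring
  rw [e1, norm_div]
  have e2 : ‖(X : ℂ)‖ = X := by simp
  rw [e2, div_le_iff₀ hX0]
  refine (norm_sub_le _ _).trans ?_
  have h6 : X * ∑ p ∈ LP y X, (1 : ℝ) / (p : ℝ) ^ 2 ≤ X * (1 / y) :=
    mul_le_mul_of_nonneg_left h5 hX0.le
  calc _ ≤ 2 * X * Real.exp (- (δ * Real.log X) +
      (Real.exp 1 * |θ| * (∑ p ∈ PP y, (1 : ℝ) / p) + Real.exp 2)) +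
      (|θ| * (X * ∑ p ∈ LP y X, (1 : ℝ) / p) + X * ∑ p ∈ LP y X, (1 : ℝ) / (p : ℝ) ^ 2) :=
        add_le_add h3 h4
    _ ≤ 2 * X * Real.exp (- (δ * Real.log X) +
      (Real.exp 1 * |θ| * (∑ p ∈ PP y, (1 : ℝ) / p) + Real.exp 2)) +
      (|θ| * (X * ∑ p ∈ LP y X, (1 : ℝ) / p) + X * (1 / y)) := by linarith
    _ = _ := by ring

end Pool.Agent.L0h74.S4
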