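import Mathlib
import Pool.Agent.L0h74.S4.D
import Pool.Agent.Y405.CQ.MER

set_option autoImplicit false

/-!
Sums over primes, from Mertens' theorem in arithmetic progressions modulo 28.
-/

namespace Pool.Agent.L0h74.S4

open Finset

/-- prime reciprocal sums in a class mod 28 -/
noncomputable def TT (a y : ℕ) : ℝ :=
  ∑ p ∈ (Icc 1 y).filter (fun p => p.Prime ∧ p % 28 = a), (1 : ℝ) / p

lemma TT_eq (a y : ℕ) : TT a y = ∑ p ∈ (Icc 1 y).filter (fun p => p.Prime),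
    (if p % 28 = a then (1 : ℝ) else 0) / p := by
  unfold TT
  rw [← Finset.filter_filter, Finset.sum_filter]
  apply Finset.sum_congr rfl
  intro p _
  split_ifs <;> simp

lemma fp_mod (p : ℕ) : fp p = fp (p % 28) := by
  have h4 : p % 28 % 4 = p % 4 := Nat.mod_mod_of_dvd p (by norm_num)
  have h7 : p % 28 % 7 = p % 7 := Nat.mod_mod_of_dvd p (by norm_num)
  unfold fp
  rw [h4, h7]

lemma fp_expand (p : ℕ) : (fp p : ℝ) =
    (if p % 28 = 11 then (1 : ℝ) else 0) + (if p % 28 = 15 then (1 : ℝ) else 0) +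
    (if p % 28 = 23 then (1 : ℝ) else 0) - (if p % 28 = 3 then (1 : ℝ) else 0) -
    (if p % 28 = 19 then (1 : ℝ) else 0) - (if p % 28 = 27 then (1 : ℝ) else 0) := by
  rw [fp_mod]
  have h : p % 28 < 28 := Nat.mod_lt _ (by norm_num)
  generalize p % 28 = r at h
  interval_cases r <;> simp [fp]

lemma fp_sq_expand (p : ℕ) : (fp p : ℝ) ^ 2 =
    (if p % 28 = 11 then (1 : ℝ) else 0) + (if p % 28 = 15 then (1 : ℝ) else 0) +
    (if p % 28 = 23 then (1 : ℝ) else 0) + (if p % 28 = 3 then (1 : ℝ) else 0) +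
    (if p % 28 = 19 then (1 : ℝ) else 0) + (if p % 28 = 27 then (1 : ℝ) else 0) := by
  rw [fp_mod]
  have h : p % 28 < 28 := Nat.mod_lt _ (by norm_num)
  generalize p % 28 = r at h
  interval_cases r <;> simp [fp]

lemma PP_sum (y : ℕ) (g : ℕ → ℝ) (h2 : g 2 = 0) (h7 : g 7 = 0) :
    ∑ p ∈ PP y, g p = ∑ p ∈ (Icc 1 y).filter (fun p => p.Prime), g p := by
  apply Finset.sum_subset
  · intro p hp
    simp only [PP, mem_filter] at hp ⊢
    exact ⟨hp.1, hp.2.1⟩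
  · intro p hp hp2
    simp only [PP, mem_filter] at hp hp2
    by_cases p2 : p = 2
    · rw [p2]; exact h2
    by_cases p7 : p = 7
    · rw [p7]; exact h7
    exact absurd ⟨hp.1, hp.2, p2, p7⟩ hp2

lemma sum_fp (y : ℕ) : ∑ p ∈ PP y, (fp p : ℝ) / p =
    TT 11 y + TT 15 y + TT 23 y - TT 3 y - TT 19 y - TT 27 y := by
  rw [PP_sum y (fun p => (fp p : ℝ) / p) (by simp [fp_two]) (by simp [fp_seven])]
  simp only [TT_eq]
  rw [← Finset.sum_add_distrib, ← Finset.sum_add_distrib, ← Finset.sum_sub_distrib,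
    ← Finset.sum_sub_distrib, ← Finset.sum_sub_distrib]
  apply Finset.sum_congr rfl
  intro p _
  rw [fp_expand]
  ring

lemma sum_fp_sq (y : ℕ) : ∑ p ∈ PP y, (fp p : ℝ) ^ 2 / p =
    TT 11 y + TT 15 y + TT 23 y + TT 3 y + TT 19 y + TT 27 y := by
  rw [PP_sum y (fun p => (fp p : ℝ) ^ 2 / p) (by simp [fp_two]) (by simp [fp_seven])]
  simp only [TT_eq]
  rw [← Finset.sum_add_distrib, ← Finset.sum_add_distrib, ← Finset.sum_add_distrib,
    ← Finset.sum_add_distrib, ← Finset.sum_add_distrib]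
  apply Finset.sum_congr rfl
  intro p _
  rw [fp_sq_expand]
  ring

lemma TT_bound : ∃ C : ℝ, 0 ≤ C ∧ ∀ y : ℕ, 3 ≤ y → ∀ a ∈ ({11, 15, 23, 3, 19, 27} : Finset ℕ),
    |TT a y - 1 / 12 * Real.log (Real.log y)| ≤ C := by
  have key : ∀ a ∈ ({11, 15, 23, 3, 19, 27} : Finset ℕ), ∃ C : ℝ, 0 ≤ C ∧ ∀ y : ℕ, 3 ≤ y →
      |TT a y - 1 / 12 * Real.log (Real.log y)| ≤ C := by
    intro a ha
    have h1 : a < 28 := by
      fin_cases ha <;> norm_num
    have h2 : a.Coprime 28 := by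
      fin_cases ha <;> norm_num
    obtain ⟨C, hC, h⟩ := Pool.Agent.Y405.CQ.mertens_ap 28 (by norm_num) a h1 h2
    refine ⟨C, hC, fun y hy => ?_⟩
    have h3 := h y hy
    have h4 : ((Nat.totient 28 : ℕ) : ℝ) = 12 := by
      have : Nat.totient 28 = 12 := by decide
      rw [this]; norm_num
    rw [h4] at h3
    exact h3
  choose! C hC h using key
  refine ⟨∑ a ∈ ({11, 15, 23, 3, 19, 27} : Finset ℕ), C a, Finset.sum_nonneg hC, ?_⟩
  intro y hy a ha
  exact (h a ha y hy).trans (Finset.single_le_sum hC ha)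

lemma corr (y : ℕ) (hy : 1 ≤ y) (g : ℕ → ℝ) (hg : ∀ p, |g p| ≤ 1) :
    |∑ p ∈ PP y, g p / ((p : ℝ) + 1) - ∑ p ∈ PP y, g p / p| ≤ 1 := by
  rw [← Finset.sum_sub_distrib]
  refine (Finset.abs_sum_le_sum_abs _ _).trans ((Finset.sum_le_sum ?_).trans (sum_sq_PP y hy))
  intro p hp
  simp only [PP, mem_filter, mem_Icc] at hp
  have hp0 : (0 : ℝ) < p := by exact_mod_cast hp.2.1.pos
  have e1 : g p / ((p : ℝ) + 1) - g p / p = - (g p * (1 / (p * ((p : ℝ) + 1)))) := by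
    field_simp; ring
  rw [e1, abs_neg, abs_mul, abs_of_pos (show (0 : ℝ) < 1 / (p * ((p : ℝ) + 1)) by positivity)]
  calc |g p| * (1 / (p * ((p : ℝ) + 1))) ≤ 1 * (1 / (p * ((p : ℝ) + 1))) := by
        gcongr
        exact hg p
    _ ≤ 1 / (p : ℝ) ^ 2 := by
        rw [one_mul]
        apply one_div_le_one_div_of_le (by positivity)
        nlinarith

theorem prime_sums : ∃ C : ℝ, 0 ≤ C ∧ ∀ y : ℕ, 3 ≤ y →
    |∑ p ∈ PP y, (fp p : ℝ) / ((p : ℝ) + 1)| ≤ C ∧
    |∑ p ∈ PP y, (fp p : ℝ) ^ 2 / ((p : ℝ) + 1) - 1 / 2 * Real.log (Real.log y)| ≤ C ∧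
    ∑ p ∈ PP y, (1 : ℝ) / p ≤ Real.log (Real.log y) + C ∧
    ∀ X : ℕ, y ≤ X → ∑ p ∈ LP y X, (1 : ℝ) / p ≤ Real.log (Real.log X) - Real.log (Real.log y) + C := by
  obtain ⟨C, hC, h⟩ := TT_bound
  obtain ⟨C1, hC1, h1⟩ := Pool.Agent.Y405.CQ.mertens_ap 1 le_rfl 0 one_pos (by norm_num)
  have hall : ∀ y : ℕ, 3 ≤ y → |∑ p ∈ (Icc 1 y).filter (fun p => p.Prime), (1 : ℝ) / p -
      Real.log (Real.log y)| ≤ C1 := by
    intro y hy
    have := h1 y hy
    have e : (Icc 1 y).filter (fun p => p.Prime ∧ p % 1 = 0) = (Icc 1 y).filter (fun p => p.Prime) := by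
      apply Finset.filter_congr
      intro p _
      simp [Nat.mod_one]
    rw [e] at this
    simpa using this
  refine ⟨6 * C + 2 * C1 + 1, by positivity, ?_⟩
  intro y hy
  have t1 := h y hy 11 (by decide)
  have t2 := h y hy 15 (by decide)
  have t3 := h y hy 23 (by decide)
  have t4 := h y hy 3 (by decide)
  have t5 := h y hy 19 (by decide)
  have t6 := h y hy 27 (by decide)
  rw [abs_le] at t1 t2 t3 t4 t5 t6
  refine ⟨?_, ?_, ?_, ?_⟩
  · have c1 := corr y (by omega) (fun p => (fp p : ℝ)) abs_fp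
    rw [sum_fp] at c1
    rw [abs_le] at c1 ⊢
    constructor <;> linarith [t1.1, t1.2, t2.1, t2.2, t3.1, t3.2, t4.1, t4.2, t5.1, t5.2,
      t6.1, t6.2, c1.1, c1.2]
  · have c1 := corr y (by omega) (fun p => (fp p : ℝ) ^ 2) (by
      intro p
      rw [abs_pow]
      exact pow_le_one₀ (abs_nonneg _) (abs_fp p))
    rw [sum_fp_sq] at c1
    rw [abs_le] at c1 ⊢
    constructor <;> linarith [t1.1, t1.2, t2.1, t2.2, t3.1, t3.2, t4.1, t4.2, t5.1, t5.2,
      t6.1, t6.2, c1.1, c1.2]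
  · have h2 : ∑ p ∈ PP y, (1 : ℝ) / p ≤ ∑ p ∈ (Icc 1 y).filter (fun p => p.Prime), (1 : ℝ) / p := by
      apply Finset.sum_le_sum_of_subset_of_nonneg
      · intro p hp
        simp only [PP, mem_filter] at hp ⊢
        exact ⟨hp.1, hp.2.1⟩
      · intro _ _ _; positivity
    have h3 := hall y hy
    rw [abs_le] at h3
    linarith [h3.1, h3.2]
  · intro X hX
    have h3 := hall y hy
    have h4 := hall X (hy.trans hX)
    rw [abs_le] at h3 h4
    have h5 : ∑ p ∈ (Icc 1 y).filter (fun p => p.Prime), (1 : ℝ) / p +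
        ∑ p ∈ LP y X, (1 : ℝ) / p = ∑ p ∈ (Icc 1 X).filter (fun p => p.Prime), (1 : ℝ) / p := by
      rw [← Finset.sum_union]
      · apply Finset.sum_congr _ (fun _ _ => rfl)
        ext p
        simp only [LP, mem_union, mem_filter, mem_Icc, mem_Ioc]
        constructor
        · rintro (⟨⟨h1, h2⟩, h3⟩ | ⟨⟨h1, h2⟩, h3⟩)
          · exact ⟨⟨h1, by omega⟩, h3⟩
          · exact ⟨⟨by omega, h2⟩, h3⟩
        · rintro ⟨⟨h1, h2⟩, h3⟩
          by_cases hp : p ≤ y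
          · left; exact ⟨⟨h1, hp⟩, h3⟩
          · right; exact ⟨⟨by omega, h2⟩, h3⟩
      · rw [Finset.disjoint_left]
        intro p h1 h2
        simp only [LP, mem_filter, mem_Icc, mem_Ioc] at h1 h2
        omega
    linarith [h3.1, h3.2, h4.1, h4.2]

end Pool.Agent.L0h74.S4
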