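import Mathlib
import Pool.Agent.L0h74.S4.E

set_option autoImplicit false

/-!
The limit of the normalized exponential sums.
-/

namespace Pool.Agent.L0h74.S4

open Finset Filter
open scoped Topology

noncomputable def LL (X : ℕ) : ℝ := Real.log (Real.log X)

noncomputable def yy (X : ℕ) : ℕ := ⌊Real.exp (Real.log X / LL X)⌋₊

noncomputable def th (t : ℝ) (X : ℕ) : ℝ := t / Real.sqrt (LL X / 2)

lemma tendsto_log_nat : Tendsto (fun X : ℕ => Real.log (X : ℝ)) atTop atTop :=
  Real.tendsto_log_atTop.comp tendsto_natCast_atTop_atTop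

lemma tendsto_LL : Tendsto LL atTop atTop := Real.tendsto_log_atTop.comp tendsto_log_nat

lemma tendsto_ratio : Tendsto (fun X : ℕ => Real.log (X : ℝ) / LL X) atTop atTop := by
  have h1 : Tendsto (fun L : ℝ => L / Real.log L) atTop atTop := by
    have h2 : Tendsto (fun L : ℝ => Real.log L / L) atTop (𝓝 0) := by
      have := Real.isLittleO_log_id_atTop.tendsto_div_nhds_zero
      simpa using this
    have h3 : ∀ᶠ L : ℝ in atTop, 0 < Real.log L / L := by
      filter_upwards [eventually_gt_atTop (1 : ℝ)] with L hL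
      exact div_pos (Real.log_pos hL) (by linarith)
    have h4 : Tendsto (fun L : ℝ => Real.log L / L) atTop (𝓝[>] 0) :=
      tendsto_nhdsWithin_iff.2 ⟨h2, h3⟩
    have h5 := tendsto_inv_nhdsGT_zero.comp h4
    refine h5.congr (fun L => ?_)
    simp [Function.comp]
  exact h1.comp tendsto_log_nat

lemma tendsto_exp_ratio : Tendsto (fun X : ℕ => Real.exp (Real.log (X : ℝ) / LL X)) atTop atTop :=
  Real.tendsto_exp_atTop.comp tendsto_ratio

lemma tendsto_yy : Tendsto yy atTop atTop := tendsto_nat_floor_atTop.comp tendsto_exp_ratio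

lemma props : ∀ᶠ X : ℕ in atTop, 1 ≤ X ∧ 3 ≤ yy X ∧ yy X ≤ X ∧ 1 ≤ LL X ∧ LL X ≤ Real.log X ∧
    ((yy X : ℕ) : ℝ) ^ (LL X / Real.log X) ≤ Real.exp 1 ∧
    Real.log (Real.log (yy X)) ≤ LL X ∧
    LL X - Real.log (LL X) - Real.log 2 ≤ Real.log (Real.log (yy X)) := by
  filter_upwards [eventually_ge_atTop 1, tendsto_yy.eventually_ge_atTop 3,
    tendsto_LL.eventually_ge_atTop 1, tendsto_log_nat.eventually_ge_atTop 1,
    tendsto_ratio.eventually_ge_atTop (2 * Real.log 2),
    tendsto_exp_ratio.eventually_ge_atTop 2] with X hX hy hLL hL hr hR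
  have hX0 : (0 : ℝ) < X := by exact_mod_cast hX
  have hL0 : 0 < Real.log X := by linarith
  have hLL0 : 0 < LL X := by linarith
  have hLLL : LL X ≤ Real.log X := by
    have := Real.log_le_sub_one_of_pos hL0
    unfold LL
    linarith
  have hyy : (yy X : ℝ) ≤ Real.exp (Real.log X / LL X) := Nat.floor_le (Real.exp_pos _).le
  have hy0 : (0 : ℝ) < yy X := by
    have : 0 < yy X := by omega
    exact_mod_cast this
  have hy3 : (3 : ℝ) ≤ yy X := by exact_mod_cast hy
  have hlogy : Real.log (yy X) ≤ Real.log X / LL X := by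
    calc Real.log (yy X) ≤ Real.log (Real.exp (Real.log X / LL X)) := Real.log_le_log hy0 hyy
      _ = _ := Real.log_exp _
  have hlogy0 : 0 < Real.log (yy X) := Real.log_pos (by linarith)
  have hrle : Real.log X / LL X ≤ Real.log X := div_le_self hL0.le hLL
  refine ⟨hX, hy, ?_, hLL, hLLL, ?_, ?_, ?_⟩
  · have : (yy X : ℝ) ≤ X := by
      refine hyy.trans ?_
      calc Real.exp (Real.log X / LL X) ≤ Real.exp (Real.log X) := Real.exp_le_exp.2 hrle
        _ = X := Real.exp_log hX0
    exact_mod_cast this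
  · rw [Real.rpow_def_of_pos hy0]
    apply Real.exp_le_exp.2
    calc Real.log (yy X) * (LL X / Real.log X) ≤ (Real.log X / LL X) * (LL X / Real.log X) :=
          mul_le_mul_of_nonneg_right hlogy (by positivity)
      _ = 1 := by field_simp
  · unfold LL
    exact Real.log_le_log hlogy0 (hlogy.trans hrle)
  · have h1 : Real.exp (Real.log X / LL X) / 2 ≤ yy X := by
      have h2 := Nat.lt_floor_add_one (Real.exp (Real.log X / LL X))
      have h3 : (yy X : ℝ) = (⌊Real.exp (Real.log X / LL X)⌋₊ : ℝ) := rfl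
      rw [h3]
      linarith
    have h2 : Real.log X / LL X - Real.log 2 ≤ Real.log (yy X) := by
      calc Real.log X / LL X - Real.log 2 = Real.log (Real.exp (Real.log X / LL X) / 2) := by
            rw [Real.log_div (Real.exp_pos _).ne' (by norm_num), Real.log_exp]
        _ ≤ Real.log (yy X) := Real.log_le_log (by positivity) h1
    have h3 : Real.log X / LL X / 2 ≤ Real.log (yy X) := by linarith
    calc LL X - Real.log (LL X) - Real.log 2 = Real.log (Real.log X / LL X / 2) := by
          rw [Real.log_div (by positivity) (by norm_num), Real.log_div hL0.ne' hLL0.ne']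
          rfl
      _ ≤ Real.log (Real.log (yy X)) := Real.log_le_log (by positivity) h3

lemma th_sq (t : ℝ) (X : ℕ) (h : 0 < LL X) : th t X ^ 2 = 2 * t ^ 2 / LL X := by
  unfold th
  rw [div_pow, Real.sq_sqrt (by positivity)]
  field_simp

lemma tendsto_th (t : ℝ) : Tendsto (th t) atTop (𝓝 0) := by
  have h1 : Tendsto (fun X => Real.sqrt (LL X / 2)) atTop atTop :=
    Real.tendsto_sqrt_atTop.comp (tendsto_LL.atTop_div_const (by norm_num))
  exact h1.const_div_atTop t

lemma tendsto_log_LL_div : Tendsto (fun X => Real.log (LL X) / LL X) atTop (𝓝 0) := by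
  exact (Real.isLittleO_log_id_atTop.tendsto_div_nhds_zero).comp tendsto_LL

lemma tendsto_th_log (t C : ℝ) :
    Tendsto (fun X => |th t X| * (Real.log (LL X) + Real.log 2 + C)) atTop (𝓝 0) := by
  have h1 : Tendsto (fun x : ℝ => Real.log x / x ^ (1 / 2 : ℝ)) atTop (𝓝 0) :=
    (isLittleO_log_rpow_atTop (by norm_num : (0 : ℝ) < 1 / 2)).tendsto_div_nhds_zero
  have h2 := h1.comp tendsto_LL
  have h3 : Tendsto (fun X => |t| * Real.sqrt 2 * (Real.log (LL X) / LL X ^ (1 / 2 : ℝ)) +
      |th t X| * (Real.log 2 + C)) atTop (𝓝 (|t| * Real.sqrt 2 * 0 + |0| * (Real.log 2 + C))) :=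
    (h2.const_mul _).add ((tendsto_th t).abs.mul_const _)
  rw [mul_zero, abs_zero, zero_mul, add_zero] at h3
  refine h3.congr' ?_
  filter_upwards [tendsto_LL.eventually_gt_atTop 0] with X hX
  have e : |th t X| = |t| * Real.sqrt 2 / Real.sqrt (LL X) := by
    unfold th
    rw [abs_div, abs_of_nonneg (Real.sqrt_nonneg _), Real.sqrt_div' _ (by norm_num : (0 : ℝ) ≤ 2)]
    have : Real.sqrt (LL X) ≠ 0 := (Real.sqrt_pos.2 hX).ne'
    field_simp
  rw [e, ← Real.sqrt_eq_rpow]
  have : Real.sqrt (LL X) ≠ 0 := (Real.sqrt_pos.2 hX).ne'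
  field_simp
  ring

theorem main_lim (t : ℝ) : Tendsto (fun X : ℕ => SS X (th t X) / X -
    3 / 14 * KK (yy X) * Complex.exp (-((t : ℂ) ^ 2 / 2))) atTop (𝓝 0) := by
  obtain ⟨C, hC, hps⟩ := prime_sums
  set A : ℕ → ℝ := fun X => ∑ p ∈ PP (yy X), (fp p : ℝ) / ((p : ℝ) + 1) with hA
  set B : ℕ → ℝ := fun X => ∑ p ∈ PP (yy X), (fp p : ℝ) ^ 2 / ((p : ℝ) + 1) with hB
  set w : ℕ → ℝ := fun X => Real.log (Real.log (yy X)) with hw
  have hev := props
  have hthabs : Tendsto (fun X => |th t X|) atTop (𝓝 0) := by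
    have := (tendsto_th t).abs
    rwa [abs_zero] at this
  -- part 1
  have p1 : Tendsto (fun X : ℕ => SS X (th t X) / X -
      3 / 14 * KK (yy X) * ∏ p ∈ PP (yy X), av (th t X) p) atTop (𝓝 0) := by
    rw [tendsto_zero_iff_norm_tendsto_zero]
    have hb1 : Tendsto (fun X => 2 * Real.exp (-(LL X) / 2 + (C / 2 + Real.exp 2))) atTop (𝓝 0) := by
      have h1 : Tendsto (fun X => -(LL X) / 2 + (C / 2 + Real.exp 2)) atTop atBot := by
        apply tendsto_atBot_add_const_right
        have h2 : Tendsto (fun X => LL X / 2) atTop atTop := tendsto_LL.atTop_div_const (by norm_num)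
        have h3 := tendsto_neg_atTop_atBot.comp h2
        refine h3.congr (fun X => ?_)
        simp only [Function.comp]
        ring
      have h2 := (Real.tendsto_exp_atBot.comp h1).const_mul 2
      rw [mul_zero] at h2
      exact h2
    have hb2 : Tendsto (fun X => |th t X| * (Real.log (LL X) + Real.log 2 + C)) atTop (𝓝 0) :=
      tendsto_th_log t C
    have hb3 : Tendsto (fun X => 1 / (yy X : ℝ)) atTop (𝓝 0) :=
      tendsto_one_div_atTop_nhds_zero_nat.comp tendsto_yy
    have hb := (hb1.add hb2).add hb3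
    rw [add_zero, add_zero] at hb
    refine squeeze_zero' (Eventually.of_forall fun _ => norm_nonneg _) ?_ hb
    have hsmall : ∀ᶠ X in atTop, |th t X| < 1 / (2 * Real.exp 1) := by
      apply hthabs.eventually_lt_const
      positivity
    filter_upwards [hev, hsmall] with X hX hth
    obtain ⟨h1, h2, h3, h4, h5, h6, h7, h8⟩ := hX
    obtain ⟨q1, q2, q3, q4⟩ := hps (yy X) h2
    have hL0 : 0 < Real.log X := by linarith
    have hest := SS_est X (yy X) h1 (by omega) (LL X / Real.log X)
      (div_nonneg (by linarith) hL0.le) (by rw [div_le_one hL0]; exact h5) h6 (th t X)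
    refine hest.trans ?_
    have e1 : LL X / Real.log X * Real.log X = LL X := by field_simp
    rw [e1]
    have q4' := q4 X h3
    have hth0 := abs_nonneg (th t X)
    have b1 : -(LL X) + (Real.exp 1 * |th t X| * (∑ p ∈ PP (yy X), (1 : ℝ) / p) + Real.exp 2) ≤
        -(LL X) / 2 + (C / 2 + Real.exp 2) := by
      have c1 : Real.exp 1 * |th t X| ≤ 1 / 2 := by
        have hp : 0 < Real.exp 1 := Real.exp_pos 1
        calc Real.exp 1 * |th t X| ≤ Real.exp 1 * (1 / (2 * Real.exp 1)) :=
              mul_le_mul_of_nonneg_left hth.le hp.le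
          _ = 1 / 2 := by field_simp
      have c2 : 0 ≤ ∑ p ∈ PP (yy X), (1 : ℝ) / p := Finset.sum_nonneg (fun _ _ => by positivity)
      have c3 : Real.exp 1 * |th t X| * (∑ p ∈ PP (yy X), (1 : ℝ) / p) ≤
          1 / 2 * (LL X + C) := by
        calc Real.exp 1 * |th t X| * (∑ p ∈ PP (yy X), (1 : ℝ) / p) ≤
            1 / 2 * (∑ p ∈ PP (yy X), (1 : ℝ) / p) := mul_le_mul_of_nonneg_right c1 c2
          _ ≤ 1 / 2 * (LL X + C) := by
            apply mul_le_mul_of_nonneg_left _ (by norm_num)
            linarith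
      linarith
    have b2 : |th t X| * (∑ p ∈ LP (yy X) X, (1 : ℝ) / p) ≤
        |th t X| * (Real.log (LL X) + Real.log 2 + C) := by
      apply mul_le_mul_of_nonneg_left _ hth0
      have : Real.log (Real.log X) = LL X := rfl
      linarith
    have b3 := Real.exp_le_exp.2 b1
    linarith
  -- part 2
  have p2 : Tendsto (fun X : ℕ => ∏ p ∈ PP (yy X), av (th t X) p -
      Complex.exp (((th t X * A X : ℝ) : ℂ) * Complex.I - ((th t X ^ 2 / 2 * B X : ℝ) : ℂ)))
      atTop (𝓝 0) := by
    rw [tendsto_zero_iff_norm_tendsto_zero]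
    have hb1 : Tendsto (fun X => |th t X| * (2 * t ^ 2) + |th t X| ^ 3 * C + 4 * |th t X| ^ 2)
        atTop (𝓝 (0 * (2 * t ^ 2) + 0 ^ 3 * C + 4 * 0 ^ 2)) :=
      ((hthabs.mul_const _).add ((hthabs.pow 3).mul_const C)).add ((hthabs.pow 2).const_mul 4)
    have : (0 : ℝ) * (2 * t ^ 2) + 0 ^ 3 * C + 4 * 0 ^ 2 = 0 := by ring
    rw [this] at hb1
    refine squeeze_zero' (Eventually.of_forall fun _ => norm_nonneg _) ?_ hb1
    have hsmall : ∀ᶠ X in atTop, |th t X| < 1 := hthabs.eventually_lt_const one_pos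
    filter_upwards [hev, hsmall] with X hX hth
    obtain ⟨h1, h2, h3, h4, h5, h6, h7, h8⟩ := hX
    obtain ⟨q1, q2, q3, q4⟩ := hps (yy X) h2
    have hest := prod_av (th t X) hth.le (PP (yy X)) (by
      intro p hp
      simp only [PP, mem_filter, mem_Icc] at hp
      exact hp.1.1)
    refine hest.trans ?_
    have hsq := sum_sq_PP (yy X) (by omega)
    have hth0 := abs_nonneg (th t X)
    have hq := th_sq t X (by linarith)
    have hLL0 : 0 < LL X := by linarith
    have c1 : |th t X| ^ 3 * (∑ p ∈ PP (yy X), (1 : ℝ) / p) ≤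
        |th t X| * (2 * t ^ 2) + |th t X| ^ 3 * C := by
      calc |th t X| ^ 3 * (∑ p ∈ PP (yy X), (1 : ℝ) / p) ≤ |th t X| ^ 3 * (LL X + C) := by
            apply mul_le_mul_of_nonneg_left _ (by positivity)
            linarith
        _ = |th t X| * (|th t X| ^ 2 * LL X) + |th t X| ^ 3 * C := by ring
        _ = |th t X| * (2 * t ^ 2) + |th t X| ^ 3 * C := by
            rw [sq_abs, hq]
            field_simp
    have c2 : 4 * |th t X| ^ 2 * (∑ p ∈ PP (yy X), (1 : ℝ) / (p : ℝ) ^ 2) ≤ 4 * |th t X| ^ 2 :=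
      mul_le_of_le_one_right (by positivity) hsq
    linarith
  -- part 3
  have p3 : Tendsto (fun X : ℕ => Complex.exp (((th t X * A X : ℝ) : ℂ) * Complex.I -
      ((th t X ^ 2 / 2 * B X : ℝ) : ℂ))) atTop (𝓝 (Complex.exp (-((t : ℂ) ^ 2 / 2)))) := by
    have hθA : Tendsto (fun X => th t X * A X) atTop (𝓝 0) := by
      rw [tendsto_zero_iff_abs_tendsto_zero]
      have hb := hthabs.mul_const C
      rw [zero_mul] at hb
      refine squeeze_zero' (Eventually.of_forall fun _ => abs_nonneg _) ?_ hb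
      filter_upwards [hev] with X hX
      obtain ⟨h1, h2, h3, h4, h5, h6, h7, h8⟩ := hX
      obtain ⟨q1, q2, q3, q4⟩ := hps (yy X) h2
      simp only [Function.comp, abs_mul]
      exact mul_le_mul_of_nonneg_left q1 (abs_nonneg _)
    have hratio : Tendsto (fun X => w X / LL X) atTop (𝓝 1) := by
      have hlow : Tendsto (fun X => 1 - Real.log (LL X) / LL X - Real.log 2 / LL X) atTop
          (𝓝 (1 - 0 - 0)) :=
        (tendsto_const_nhds.sub tendsto_log_LL_div).sub (tendsto_LL.const_div_atTop _)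
      rw [sub_zero, sub_zero] at hlow
      refine tendsto_of_tendsto_of_tendsto_of_le_of_le' hlow tendsto_const_nhds ?_ ?_
      · filter_upwards [hev] with X hX
        obtain ⟨h1, h2, h3, h4, h5, h6, h7, h8⟩ := hX
        have hLL0 : 0 < LL X := by linarith
        rw [le_div_iff₀ hLL0]
        have : (1 - Real.log (LL X) / LL X - Real.log 2 / LL X) * LL X =
            LL X - Real.log (LL X) - Real.log 2 := by field_simp
        rw [this]
        exact h8
      · filter_upwards [hev] with X hX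
        obtain ⟨h1, h2, h3, h4, h5, h6, h7, h8⟩ := hX
        have hLL0 : 0 < LL X := by linarith
        rw [div_le_one hLL0]
        exact h7
    have hθB : Tendsto (fun X => th t X ^ 2 / 2 * B X) atTop (𝓝 (t ^ 2 / 2)) := by
      have hd : Tendsto (fun X => th t X ^ 2 / 2 * (B X - 1 / 2 * w X)) atTop (𝓝 0) := by
        rw [tendsto_zero_iff_abs_tendsto_zero]
        have hb := ((hthabs.pow 2).div_const 2).mul_const C
        have e0 : (0 : ℝ) ^ 2 / 2 * C = 0 := by ring
        rw [e0] at hb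
        refine squeeze_zero' (Eventually.of_forall fun _ => abs_nonneg _) ?_ hb
        filter_upwards [hev] with X hX
        obtain ⟨h1, h2, h3, h4, h5, h6, h7, h8⟩ := hX
        obtain ⟨q1, q2, q3, q4⟩ := hps (yy X) h2
        simp only [Function.comp, abs_mul, abs_div, abs_pow, abs_two]
        exact mul_le_mul_of_nonneg_left q2 (by positivity)
      have hm : Tendsto (fun X => t ^ 2 / 2 * (w X / LL X)) atTop (𝓝 (t ^ 2 / 2)) := by
        have := hratio.const_mul (t ^ 2 / 2)
        rwa [mul_one] at this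
      have hs := hd.add hm
      rw [zero_add] at hs
      refine hs.congr' ?_
      filter_upwards [hev] with X hX
      obtain ⟨h1, h2, h3, h4, h5, h6, h7, h8⟩ := hX
      have hLL0 : 0 < LL X := by linarith
      rw [th_sq t X hLL0]
      field_simp
      ring
    have hc1 : Tendsto (fun X => ((th t X * A X : ℝ) : ℂ)) atTop (𝓝 ((0 : ℝ) : ℂ)) :=
      (Complex.continuous_ofReal.tendsto _).comp hθA
    have hc2 : Tendsto (fun X => ((th t X ^ 2 / 2 * B X : ℝ) : ℂ)) atTop
        (𝓝 ((t ^ 2 / 2 : ℝ) : ℂ)) :=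
      (Complex.continuous_ofReal.tendsto _).comp hθB
    have hc := (hc1.mul_const Complex.I).sub hc2
    have he : ((0 : ℝ) : ℂ) * Complex.I - ((t ^ 2 / 2 : ℝ) : ℂ) = -((t : ℂ) ^ 2 / 2) := by
      push_cast; ring
    rw [he] at hc
    exact (Complex.continuous_exp.tendsto _).comp hc
  -- combine
  have p4 : Tendsto (fun X : ℕ => ∏ p ∈ PP (yy X), av (th t X) p -
      Complex.exp (-((t : ℂ) ^ 2 / 2))) atTop (𝓝 0) := by
    have h := p2.add (p3.sub_const (Complex.exp (-((t : ℂ) ^ 2 / 2))))
    rw [sub_self, add_zero] at h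
    refine h.congr (fun X => ?_)
    ring
  have p5 : Tendsto (fun X : ℕ => (3 / 14 * (KK (yy X) : ℂ)) * (∏ p ∈ PP (yy X), av (th t X) p -
      Complex.exp (-((t : ℂ) ^ 2 / 2)))) atTop (𝓝 0) := by
    rw [tendsto_zero_iff_norm_tendsto_zero] at p4 ⊢
    refine squeeze_zero' (Eventually.of_forall fun _ => norm_nonneg _) ?_ p4
    filter_upwards [hev] with X hX
    rw [norm_mul]
    apply mul_le_of_le_one_left (norm_nonneg _)
    have k1 := KK_ge (yy X) (by omega)
    have k2 := KK_le (yy X)
    have e : (3 / 14 * (KK (yy X) : ℂ)) = ((3 / 14 * KK (yy X) : ℝ) : ℂ) := by push_cast; rfl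
    rw [e, Complex.norm_real, Real.norm_eq_abs, abs_le]
    constructor <;> linarith
  have h := p1.add p5
  rw [add_zero] at h
  refine h.congr (fun X => ?_)
  ring

end Pool.Agent.L0h74.S4
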